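import Pool.Agent.Work.MP_fe875b_lc.W.Upd

/-!
MP_fe875b_lc, W/Dual (size S-M): the duality lemma in a space with antipodes.

`anti` is a map with `D x (anti y) = Δ - D x y`. For a `QWF` function `w` and every request `r` the extended cost is attained at the
configuration with all servers at the antipode of `r`:
`w^r(X) - w(X) ≤ Δ + w(r, r', ..., r') - w(r', ..., r')` for all `X` (`r' = anti r`).

Proof. Let `A = fun _ => r'`, `A₁ = update A i₀ r`. Apply `qc` to `A₁` and `X`: `π`, and take `I = {i₀}`:
`w (update A₁ i₀ (X (π i₀))) + w (update (X ∘ π) i₀ r) ≤ w A₁ + w X`. Put `y = X (π i₀)`. The first configuration is `update A i₀ y`, and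
`w A ≤ w (update A i₀ y) + D y r'` by `lip` (`update (update A i₀ y) i₀ r' = A`), `D y r' = Δ - D y r`. The second one is, up to the permutation `π`,
`update X (π i₀) r`, and `upd D w r X ≤ w (update X (π i₀) r) + D r y` (`upd_le`). Sum:
`w A - Δ + D y r + upd D w r X - D r y ≤ w A₁ + w X`.
-/

set_option autoImplicit false

namespace Pool.Agent.KServer

open Finset

variable {M : Type*} {k : ℕ}

theorem upd_sub_le {D : M → M → ℝ} (hD : Metr D) {anti : M → M} {Δ : ℝ} (ha : ∀ x y, D x (anti y) = Δ - D x y)
    {w : (Fin k → M) → ℝ} (hw : QWF D w) (r : M) (i₀ : Fin k) (X : Fin k → M) :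
    upd D w r X - w X ≤ Δ + w (Function.update (fun _ => anti r) i₀ r) - w (fun _ => anti r) := by
  classical
  set A : Fin k → M := fun _ => anti r with hA
  obtain ⟨π, hπ⟩ := hw.qc (Function.update A i₀ r) X
  have h1 := hπ {i₀}
  rw [Finset.piecewise_singleton, Finset.piecewise_singleton, Function.update_self,
    Function.update_idem] at h1
  set y : M := X (π i₀) with hy
  have e1 : (X ∘ π) i₀ = y := rfl
  rw [e1] at h1
  have h2 : w A ≤ w (Function.update A i₀ y) + D y (anti r) := by
    have := hw.lip (Function.update A i₀ y) i₀ (anti r)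
    rw [Function.update_idem, Function.update_self] at this
    have e : Function.update A i₀ (anti r) = A := Function.update_eq_self i₀ A
    rw [e] at this
    exact this
  rw [ha] at h2
  have h3 : w (Function.update (X ∘ π) i₀ r) = w (Function.update X (π i₀) r) := by
    rw [← hw.symm (Function.update X (π i₀) r) π]
    congr 1
    funext j
    simp only [Function.comp_apply, Function.update_apply, EmbeddingLike.apply_eq_iff_eq]
  rw [h3] at h1
  have h4 := upd_le D w r X (π i₀)
  rw [hD.comm r] at h4
  change upd D w r X ≤ w (Function.update X (π i₀) r) + D y r at h4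
  linarith

end Pool.Agent.KServer
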