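import Pool.Agent.Work.MP_fe875b_lc.W.Br2

/-!
MP_fe875b_lc, W/Br3: inequality [I] follows from the class A inequality.
-/

set_option autoImplicit false
set_option linter.unusedSectionVars false

namespace Pool.Agent.KServer

variable {V : Type}

/-- Class A (exactly two rows among 1, 2, 3 replace the centre `q`), representative `(0,0,1)`. -/
def IneqA (D : V → V → ℝ) (anti : V → V) (Δ : ℝ) : Prop :=
  ∀ w : (Fin 3 → V) → ℝ, QWF D w → ∀ q x y t r : V,
    Psi D anti Δ w + w ![r, anti r, anti r] ≤
      w ![r, anti q, anti q] + D r (anti q) + (w ![r, x, y] + D r q) + (w ![r, anti x, t] + D r q)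
        + (w ![r, q, anti t] + D r (anti y)) + cT D anti x y t + w ![anti r, anti r, anti r]

private theorem w_perm {D : V → V → ℝ} {w : (Fin 3 → V) → ℝ} (hw : QWF D w) (a b c : V) :
    w ![a, b, c] = w ![a, c, b] := by
  rw [← hw.symm ![a, c, b] (Equiv.swap 1 2)]
  congr 1
  funext j
  fin_cases j <;> rfl

private theorem w_perm2 {D : V → V → ℝ} {w : (Fin 3 → V) → ℝ} (hw : QWF D w) (a b c : V) :
    w ![a, b, c] = w ![b, a, c] := by
  rw [← hw.symm ![b, a, c] (Equiv.swap 0 1)]
  congr 1
  funext j
  fin_cases j <;> rfl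

theorem loc_of_qwf {D : V → V → ℝ} {anti : V → V} {Δ : ℝ} (hD : Metr D) (hai : ∀ x, anti (anti x) = x)
    (ha : ∀ x y, D x (anti y) = Δ - D x y) {w : (Fin 3 → V) → ℝ} (hw : QWF D w) (r : V) :
    Loc D anti Δ (fun a b => w ![r, a, b]) where
  metr := hD
  ha := ha
  hai := hai
  symm a b := w_perm hw r a b
  lip a b c := by
    have h1 := hw.lip ![r, b, c] 1 a
    have e : Function.update ![r, b, c] 1 a = ![r, a, c] := by
      funext j; fin_cases j <;> rfl
    rw [e] at h1
    have h2 := hD.comm b a
    simp only [Matrix.cons_val_one, Matrix.cons_val_zero] at h1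
    linarith
  fp a b c d := by
    -- bijection between (r, a, b) and (r, c, d) with r fixed
    obtain ⟨π, hπ, hI⟩ := qc_fix hw (X := ![r, a, b]) (Y := ![r, c, d]) (a := 0) (b := 0) (r := r) rfl rfl
    have h1 := hI {1}
    have e1 : (({1} : Finset (Fin 3)).piecewise (![r, c, d] ∘ π) ![r, a, b]) = ![r, ![r, c, d] (π 1), b] := by
      funext j; fin_cases j <;> rfl
    have e2 : (({1} : Finset (Fin 3)).piecewise ![r, a, b] (![r, c, d] ∘ π)) = ![r, a, ![r, c, d] (π 2)] := by
      funext j; fin_cases j
      · show ![r, c, d] (π 0) = r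
        rw [hπ]; rfl
      · rfl
      · rfl
    rw [e1, e2] at h1
    have hp1 : π 1 ≠ 0 := fun h => by
      have := π.injective (h.trans hπ.symm)
      exact absurd this (by decide)
    have hp2 : π 2 ≠ 0 := fun h => by
      have := π.injective (h.trans hπ.symm)
      exact absurd this (by decide)
    have hp12 : π 1 ≠ π 2 := fun h => absurd (π.injective h) (by decide)
    have hc : (π 1 = 1 ∧ π 2 = 2) ∨ (π 1 = 2 ∧ π 2 = 1) := by
      generalize π 1 = p1 at *
      generalize π 2 = p2 at *
      fin_cases p1 <;> fin_cases p2 <;> simp_all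
    show min (w ![r, a, c] + w ![r, b, d]) (w ![r, a, d] + w ![r, b, c]) ≤ w ![r, a, b] + w ![r, c, d]
    rcases hc with ⟨h3, h4⟩ | ⟨h3, h4⟩
    · rw [h3, h4] at h1
      have h5 : w ![r, c, b] + w ![r, a, d] ≤ w ![r, a, b] + w ![r, c, d] := h1
      refine (min_le_right _ _).trans ?_
      rw [w_perm hw r b c]
      linarith
    · rw [h3, h4] at h1
      have h5 : w ![r, d, b] + w ![r, a, c] ≤ w ![r, a, b] + w ![r, c, d] := h1
      refine (min_le_left _ _).trans ?_
      rw [w_perm hw r b d]
      linarith

private theorem finish [Finite V] [Nonempty V] {D : V → V → ℝ} {anti : V → V} {Δ : ℝ} {w : (Fin 3 → V) → ℝ}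
    {r : V} {L : ℝ} (h : Tgt D anti Δ (fun a b => w ![r, a, b]) r L) :
    Psi D anti Δ w + w ![r, anti r, anti r] ≤ L + w ![anti r, anti r, anti r] := by
  obtain ⟨a, b, e, h⟩ := h
  have h1 := Psi_le D anti Δ w r a b e
  unfold rows at h1
  have h2 : w ![r, a, b] + w ![r, anti a, e] + w ![r, anti b, anti e] + cT D anti a b e + Δ
    + w ![r, anti r, anti r] ≤ L := h
  linarith

/-- `w^r` of a row with entries `a, b, c` -/
private theorem upd_row {D : V → V → ℝ} {w : (Fin 3 → V) → ℝ} (hw : QWF D w) (r a b c : V) :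
    upd D w r ![a, b, c] = w ![r, b, c] + D r a ∨ upd D w r ![a, b, c] = w ![r, a, c] + D r b ∨
      upd D w r ![a, b, c] = w ![r, a, b] + D r c := by
  obtain ⟨i, hi⟩ := exists_upd (k := 3) (by norm_num) D w r ![a, b, c]
  fin_cases i
  · left
    rw [hi]
    have e : Function.update ![a, b, c] 0 r = ![r, b, c] := by funext j; fin_cases j <;> rfl
    show w (Function.update ![a, b, c] 0 r) + D r a = _
    rw [e]
  · right; left
    rw [hi]
    have e : Function.update ![a, b, c] 1 r = ![a, r, c] := by funext j; fin_cases j <;> rfl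
    show w (Function.update ![a, b, c] 1 r) + D r b = _
    rw [e, w_perm2 hw]
  · right; right
    rw [hi]
    have e : Function.update ![a, b, c] 2 r = ![a, b, r] := by funext j; fin_cases j <;> rfl
    show w (Function.update ![a, b, c] 2 r) + D r c = _
    rw [e, w_perm hw a b r, w_perm2 hw a r b]

theorem ineqI_of_A [Finite V] {D : V → V → ℝ} {anti : V → V} {Δ : ℝ} (hD : Metr D)
    (hai : ∀ x, anti (anti x) = x) (ha : ∀ x y, D x (anti y) = Δ - D x y) (hA : IneqA D anti Δ) :
    IneqI D anti Δ := by
  intro w hw q x y t r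
  have : Nonempty V := ⟨q⟩
  have h := loc_of_qwf hD hai ha hw r
  have hs : ∀ a b : V, w ![r, a, b] = w ![r, b, a] := fun a b => w_perm hw r a b
  have c12 := cT_swap12 hD hai ha x y t
  have c23 := cT_swap23 hD hai ha x y t
  have c13 := cT_swap13 hD hai ha x y t
  -- row 0
  have h0 : upd D w r ![anti q, anti q, anti q] = w ![r, anti q, anti q] + D r (anti q) := by
    rcases upd_row hw r (anti q) (anti q) (anti q) with e | e | e <;> exact e
  unfold rows
  rw [h0]
  -- the twelve possible values
  rcases upd_row hw r q x y with e1 | e1 | e1 <;> rcases upd_row hw r q (anti x) t with e2 | e2 | e2 <;>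
    rcases upd_row hw r q (anti y) (anti t) with e3 | e3 | e3 <;> rw [e1, e2, e3]
  -- (0,0,0)
  · exact finish (h.b000 q x y t r)
  -- (0,0,1)
  · exact hA w hw q x y t r
  -- (0,0,2)
  · have h1 := hA w hw q (anti x) t y r
    rw [c12] at h1
    simp only [hai] at h1
    linarith
  -- (0,1,0)
  · have h1 := hA w hw q y x (anti t) r
    rw [c23] at h1
    simp only [hai] at h1
    have := hs x y
    linarith
  -- (0,1,1)
  · exact finish (h.b011 q x y t r)
  -- (0,1,2)
  · have h1 := finish (h.b031 q y x (anti t) r)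
    rw [c23] at h1
    simp only [hai] at h1
    have := hs x y
    linarith
  -- (0,3,0)
  · have h1 := hA w hw q (anti y) (anti t) x r
    have c : cT D anti (anti y) (anti t) x = cT D anti x y t := by
      rw [cT_swap12 hD hai ha y x (anti t), c23]
    rw [c] at h1
    simp only [hai] at h1
    have := hs x y
    linarith
  -- (0,3,1)
  · exact finish (h.b031 q x y t r)
  -- (0,3,2)
  · exact finish (h.b032 q x y t r)
  -- (2,0,0)
  · have h1 := hA w hw q t (anti x) (anti y) r
    have c : cT D anti t (anti x) (anti y) = cT D anti x y t := by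
      rw [cT_swap23 hD hai ha (anti x) t y, c12]
    rw [c] at h1
    simp only [hai] at h1
    have := hs (anti x) t
    have := hs (anti y) (anti t)
    linarith
  -- (2,0,1)
  · have h1 := finish (h.b031 q t (anti x) (anti y) r)
    have c : cT D anti t (anti x) (anti y) = cT D anti x y t := by
      rw [cT_swap23 hD hai ha (anti x) t y, c12]
    rw [c] at h1
    simp only [hai] at h1
    have := hs (anti x) t
    linarith
  -- (2,0,2)
  · exact finish (h.b202 q x y t r)
  -- (2,1,0)
  · have h1 := finish (h.b032 q (anti t) (anti y) (anti x) r)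
    rw [c13] at h1
    have := hs (anti y) (anti t)
    simp only [hai] at h1
    linarith
  -- (2,1,1)
  · exact finish (h.b211 q x y t r)
  -- (2,1,2)
  · exact finish (h.b212 q x y t r)
  -- (2,3,0)
  · have h1 := finish (h.b031 q (anti y) (anti t) x r)
    have c : cT D anti (anti y) (anti t) x = cT D anti x y t := by
      rw [cT_swap12 hD hai ha y x (anti t), c23]
    rw [c] at h1
    simp only [hai] at h1
    linarith
  -- (2,3,1)
  · exact finish (h.b231 q x y t r)
  -- (2,3,2)
  · exact finish (h.b232 q x y t r)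
  -- (3,0,0)
  · have h1 := hA w hw q (anti t) (anti y) (anti x) r
    rw [c13] at h1
    have := hs (anti x) t
    have := hs (anti y) (anti t)
    simp only [hai] at h1
    linarith
  -- (3,0,1)
  · have h1 := finish (h.b032 q (anti x) t y r)
    rw [c12] at h1
    simp only [hai] at h1
    linarith
  -- (3,0,2)
  · have h1 := finish (h.b031 q (anti x) t y r)
    rw [c12] at h1
    simp only [hai] at h1
    linarith
  -- (3,1,0)
  · have h1 := finish (h.b031 q (anti t) (anti y) (anti x) r)
    rw [c13] at h1
    have := hs (anti y) (anti t)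
    simp only [hai] at h1
    linarith
  -- (3,1,1)
  · exact finish (h.b311 q x y t r)
  -- (3,1,2)
  · exact finish (h.b312 q x y t r)
  -- (3,3,0)
  · exact finish (h.b330 q x y t r)
  -- (3,3,1)
  · exact finish (h.b331 q x y t r)
  -- (3,3,2)
  · exact finish (h.b332 q x y t r)

/-- The three-server theorem from the class A inequality. -/
theorem three_of_A (H : ∀ (V : Type) [Finite V] (D : V → V → ℝ) (anti : V → V) (Δ : ℝ), Metr D →
      (∀ x, anti (anti x) = x) → (∀ x y, D x (anti y) = Δ - D x y) → IneqA D anti Δ) :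
    ∀ (M : Type) [MetricSpace M] (c₀ : Fin 3 → M), ∃ b : ℝ, Comp (fun x y => dist x y) c₀ 3 b :=
  three_of_ineq fun V _ D anti Δ hD hai ha => ineqI_of_A hD hai ha (H V D anti Δ hD hai ha)

end Pool.Agent.KServer
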