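import Pool.Agent.Work.MP_fe875b_lc.W.Off

/-!
MP_fe875b_lc, W/Alg (size M): the work function algorithm and the criterion with extended costs.

Algorithm: `wfaR` on reversed lists: `wfaR [] = c₀`, `wfaR (r :: l) = update (wfaR l) i r`, where `i` is an index for which
`upd D (wfR D c₀ l) r (wfaR l) = wfR D c₀ l (update (wfaR l) i r) + D r (wfaR l i)` (`exists_upd`). This is `posR δ c₀` for the `δ` given by
choice, so it is the lazy strategy `lazyC δ c₀`, which is `Online` (`online_lazy`).

Proof of `exists_wfa`: choose for every pair (reversed list `l`, request `r`) and configuration `A` an index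
`f l r A` with this property; define `δ` by recursion so that `δ (r :: l) = f l r (posR δ c₀ l)`: to avoid the circularity define first
`pos : List M → Fin k → M` by recursion (`pos [] = c₀`, `pos (r :: l) = update (pos l) (f l r (pos l)) r`), then `δ [] = ⟨0, hk⟩`,
`δ (r :: l) = f l r (pos l)`, and show `posR δ c₀ l = pos l` by induction. Then by induction on `σ` from the right
`algCost D C σ + wf σ (C σ) ≤ (sum of extended costs)`: with `A = C σ`, `A' = C (σ ++ [r]) = update A i r`:
`∑ j, D (A j) (A' j) = D (A i) r` (only one coordinate changes) `= wf (σ ++ [r]) A - wf σ A'` (`comm`), and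
`wf (σ ++ [r]) A' = wf σ A'` by `upd_of_mem` (`A' i = r`). So
`algCost (σ ++ [r]) + wf (σ ++ [r]) A' = algCost σ + wf (σ ++ [r]) A = (algCost σ + wf σ A) + (wf (σ ++ [r]) A - wf σ A)`.
With `Φ`: `wf (σ ++ [r]) A - wf σ A ≤ Φ (σ ++ [r]) - Φ σ`; so `algCost σ + wf σ (C σ) ≤ Φ σ - Φ []` (start: `wf0 c₀ c₀ = 0`).

Proof of `comp_of_potential`: let `S` serve `σ`, `Y = S σ.length`, `A = C σ`, `u = wf σ`. `u Y ≤ schedCost` (`wf_le_sched`).
`algCost ≤ Φ σ - Φ [] - u A`. If `u A ≤ u Y`: use `h2` with `X = A`: `algCost ≤ (c + 1) u A + b - Φ [] - u A = c u A + b - Φ [] ≤ c u Y + b - Φ []`.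
If `u Y ≤ u A`: use `h2` with `X = Y`: `algCost ≤ (c+1) u Y + b - Φ [] - u A ≤ c u Y + b - Φ []`. And `c u Y ≤ c schedCost`.
-/

set_option autoImplicit false

namespace Pool.Agent.KServer

open Finset

variable {M : Type*} {k : ℕ}

private noncomputable def pos (f : List M → M → (Fin k → M) → Fin k) (c₀ : Fin k → M) :
    List M → Fin k → M
  | [] => c₀
  | (r :: l) => Function.update (pos f c₀ l) (f l r (pos f c₀ l)) r

private noncomputable def del (hk : 0 < k) (f : List M → M → (Fin k → M) → Fin k)
    (c₀ : Fin k → M) : List M → Fin k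
  | [] => ⟨0, hk⟩
  | (r :: l) => f l r (pos f c₀ l)

private theorem posR_del (hk : 0 < k) (f : List M → M → (Fin k → M) → Fin k)
    (c₀ : Fin k → M) (l : List M) : posR (del hk f c₀) c₀ l = pos f c₀ l := by
  induction l with
  | nil => rfl
  | cons r l ih =>
    show Function.update (posR (del hk f c₀) c₀ l) (f l r (pos f c₀ l)) r = _
    rw [ih]
    rfl

/-- There is an online strategy (the work function algorithm) whose cost is controlled by every potential for the
extended costs. -/
theorem exists_wfa (hk : 0 < k) {D : M → M → ℝ} (hD : Metr D) (c₀ : Fin k → M) :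
    ∃ C : List M → Fin k → M, Online c₀ C ∧ ∀ Φ : List M → ℝ,
      (∀ (σ : List M) (r : M) (X : Fin k → M), wf D c₀ (σ ++ [r]) X - wf D c₀ σ X ≤ Φ (σ ++ [r]) - Φ σ) →
      ∀ σ : List M, algCost D C σ + wf D c₀ σ (C σ) ≤ Φ σ - Φ [] := by
  have hex : ∀ (l : List M) (r : M) (A : Fin k → M), ∃ i : Fin k,
      upd D (wfR D c₀ l) r A = wfR D c₀ l (Function.update A i r) + D r (A i) :=
    fun l r A => exists_upd hk D (wfR D c₀ l) r A
  choose f hf using hex
  refine ⟨lazyC (del hk f c₀) c₀, online_lazy _ _, fun Φ hΦ σ => ?_⟩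
  induction σ using List.reverseRecOn with
  | nil =>
    rw [algCost_nil, wf_nil, lazyC_nil, wf0_self hD c₀]
    simp
  | append_singleton σ r ih =>
    set C := lazyC (del hk f c₀) c₀ with hC
    set A := C σ with hA
    have hpos : pos f c₀ σ.reverse = A := by
      rw [hA, hC]
      unfold lazyC
      rw [posR_del]
    have hδ : del hk f c₀ (r :: σ.reverse) = f σ.reverse r A := by
      show f σ.reverse r (pos f c₀ σ.reverse) = _
      rw [hpos]
    set i := f σ.reverse r A with hi
    have hA' : C (σ ++ [r]) = Function.update A i r := by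
      rw [hC, lazyC_append, hδ]
    have hup : upd D (wf D c₀ σ) r A = wf D c₀ σ (Function.update A i r) + D r (A i) :=
      hf σ.reverse r A
    have hsum : ∑ j : Fin k, D (A j) (Function.update A i r j) = D r (A i) := by
      rw [Finset.sum_eq_single i]
      · rw [Function.update_self, hD.comm]
      · intro j _ hj
        rw [Function.update_of_ne hj, hD.self]
      · intro h
        exact absurd (Finset.mem_univ i) h
    have hmem : upd D (wf D c₀ σ) r (Function.update A i r) = wf D c₀ σ (Function.update A i r) :=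
      upd_of_mem hk hD (qwf_wf hk hD c₀ σ) (i := i) (Function.update_self _ _ _)
    have h1 := hΦ σ r A
    rw [wf_append, hup] at h1
    rw [algCost_append, hA', wf_append, hmem, ← hA, hsum]
    linarith

theorem comp_of_potential (hk : 0 < k) {D : M → M → ℝ} (hD : Metr D) (c₀ : Fin k → M) {c b : ℝ} (hc : 0 ≤ c)
    (Φ : List M → ℝ)
    (h1 : ∀ (σ : List M) (r : M) (X : Fin k → M), wf D c₀ (σ ++ [r]) X - wf D c₀ σ X ≤ Φ (σ ++ [r]) - Φ σ)
    (h2 : ∀ (σ : List M) (X : Fin k → M), Φ σ ≤ (c + 1) * wf D c₀ σ X + b) :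
    Comp D c₀ c (b - Φ []) := by
  obtain ⟨C, hC, h⟩ := exists_wfa hk hD c₀
  refine ⟨C, hC, fun σ S hS => ?_⟩
  have h3 := h Φ h1 σ
  have h4 := wf_le_sched hk hD c₀ σ S hS
  have h5 := mul_le_mul_of_nonneg_left h4 hc
  rcases le_total (wf D c₀ σ (C σ)) (wf D c₀ σ (S σ.length)) with h6 | h6
  · have h7 := h2 σ (C σ)
    have h8 := mul_le_mul_of_nonneg_left h6 hc
    linarith
  · have h7 := h2 σ (S σ.length)
    linarith

end Pool.Agent.KServer
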