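import Pool.Agent.Work.MP_fe875b_lc.W.Qc0

/-!
MP_fe875b_lc, W/Ant (size M): the antipodal extension of a bounded space.

`antiD D Δ` on `M ⊕ M` (`Sum`): `(x, y) ↦ D x y` for two points of the same kind and `Δ - D x y` for points of different kinds.
* `metr_antiD`: if `D` is a symmetric pseudo-metric with `D x y ≤ B`, and `2 B ≤ Δ` (so `0 ≤ Δ - D x y`). Triangle inequality: 8 cases; same kinds: `tri`;
  end points of the same kind, the middle one of the other kind: `D x z ≤ B + B ≤ ...` precisely `D x z ≤ (Δ - D x y) + (Δ - D y z)` because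
  `D x z + D x y + D y z ≤ 3 B ≤ 2 Δ`; end points of different kinds: `Δ - D x z ≤ (Δ - D x y) + D y z` is `D x y ≤ D x z + D z y`.
* `antiD_swap`: `antiD D Δ x (Sum.swap y) = Δ - antiD D Δ x y`, 4 cases.
* `wf_antiD`: by induction on the reversed list (`wfR`): the recursion only uses points of `M`:
  `update (fun i => Sum.inl (X i)) i (Sum.inl r) = fun j => Sum.inl (update X i r j)` (`Function.update_comp`-type lemma, or `funext` and cases).
-/

set_option autoImplicit false

namespace Pool.Agent.KServer

open Finset

variable {M : Type*} {k : ℕ}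

/-- The antipodal extension of the distance function `D`, `Δ` = distance of antipodes. -/
def antiD (D : M → M → ℝ) (Δ : ℝ) : M ⊕ M → M ⊕ M → ℝ
  | Sum.inl x, Sum.inl y => D x y
  | Sum.inr x, Sum.inr y => D x y
  | Sum.inl x, Sum.inr y => Δ - D x y
  | Sum.inr x, Sum.inl y => Δ - D x y

theorem metr_antiD {D : M → M → ℝ} (hD : Metr D) {B Δ : ℝ} (hB : ∀ x y, D x y ≤ B) (hΔ : 2 * B ≤ Δ) :
    Metr (antiD D Δ) := by
  have hB0 : ∀ x : M, 0 ≤ B := fun x => by
    have := hB x x
    rwa [hD.self] at this
  refine ⟨⟨?_, ?_, ?_⟩, ?_⟩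
  · rintro (x | x) <;> exact hD.self x
  · rintro (x | x) (y | y)
    · exact hD.nonneg x y
    · have h1 := hB x y
      have h2 := hB0 x
      change 0 ≤ Δ - D x y
      linarith
    · have h1 := hB x y
      have h2 := hB0 x
      change 0 ≤ Δ - D x y
      linarith
    · exact hD.nonneg x y
  · rintro (x | x) (y | y) (z | z)
    · exact hD.tri x y z
    · have h1 := hD.tri y x z
      have h2 := hD.comm x y
      change Δ - D x z ≤ D x y + (Δ - D y z)
      linarith
    · have h1 := hB x z
      have h2 := hB x y
      have h3 := hB y z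
      have h4 := hB0 x
      change D x z ≤ (Δ - D x y) + (Δ - D y z)
      linarith
    · have h1 := hD.tri x z y
      have h2 := hD.comm y z
      change Δ - D x z ≤ (Δ - D x y) + D y z
      linarith
    · have h1 := hD.tri x z y
      have h2 := hD.comm y z
      change Δ - D x z ≤ (Δ - D x y) + D y z
      linarith
    · have h1 := hB x z
      have h2 := hB x y
      have h3 := hB y z
      have h4 := hB0 x
      change D x z ≤ (Δ - D x y) + (Δ - D y z)
      linarith
    · have h1 := hD.tri y x z
      have h2 := hD.comm x y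
      change Δ - D x z ≤ D x y + (Δ - D y z)
      linarith
    · exact hD.tri x y z
  · rintro (x | x) (y | y)
    · exact hD.comm x y
    · change Δ - D x y = Δ - D y x
      rw [hD.comm x y]
    · change Δ - D x y = Δ - D y x
      rw [hD.comm x y]
    · exact hD.comm x y

theorem antiD_swap (D : M → M → ℝ) (Δ : ℝ) (x y : M ⊕ M) :
    antiD D Δ x (Sum.swap y) = Δ - antiD D Δ x y := by
  rcases x with x | x <;> rcases y with y | y
  · rfl
  · change D x y = Δ - (Δ - D x y)
    ring
  · change D x y = Δ - (Δ - D x y)
    ring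
  · rfl

theorem wf_antiD (D : M → M → ℝ) (Δ : ℝ) (c₀ : Fin k → M) (σ : List M) (X : Fin k → M) :
    wf (antiD D Δ) (fun i => Sum.inl (c₀ i)) (σ.map Sum.inl) (fun i => Sum.inl (X i)) = wf D c₀ σ X := by
  classical
  unfold wf
  rw [← List.map_reverse]
  generalize σ.reverse = l
  induction l generalizing X with
  | nil => rfl
  | cons r l ih =>
    change upd (antiD D Δ) (wfR (antiD D Δ) (fun i => Sum.inl (c₀ i)) (l.map Sum.inl)) (Sum.inl r)
      (fun i => Sum.inl (X i)) = upd D (wfR D c₀ l) r X
    unfold upd
    congr 1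
    funext i
    have e : Function.update (fun j => (Sum.inl (X j) : M ⊕ M)) i (Sum.inl r) =
        fun j => Sum.inl (Function.update X i r j) := by
      funext j
      simp only [Function.update_apply]
      split_ifs <;> rfl
    rw [e, ih]
    rfl

end Pool.Agent.KServer
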