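import Pool.Agent.Work.MP_fe875b_lc.W.Loc

/-!
MP_fe875b_lc, W/Br: the settled branches (27 branch maps, all except those with exactly two zeros).
The name `bijk` means: in row 1 the entry `i` is replaced by `r`, in row 2 the entry `j`, in row 3 the
entry `k` (0 = the centre `q`, otherwise the index of the array entry). Row 0 is always
`u(q',q') + D(r,q')`.
-/

set_option autoImplicit false
set_option linter.unusedSectionVars false

namespace Pool.Agent.KServer

namespace Loc

variable {V : Type} [Finite V] [Nonempty V] {D : V → V → ℝ} {anti : V → V} {Δ : ℝ} {u : V → V → ℝ}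

theorem b000 (h : Loc D anti Δ u) (q x y t r : V) :
    Tgt D anti Δ u r (u (anti q) (anti q) + D r (anti q) + (u x y + D r q) + (u (anti x) t + D r q)
      + (u (anti y) (anti t) + D r q) + cT D anti x y t) := by
  refine ⟨x, y, t, ?_⟩
  have h1 := h.lip2 (anti r) (anti q) (anti r) (anti q)
  rw [h.haa] at h1
  rw [h.ha r q]
  linarith

/-- rows `(q,x) + ry`, `(q,x') + rt`, `(q,a) + cost` with `u(r',r') ≤ u(q,a) + Δ - D r q + ...` -/
theorem bnz_x (h : Loc D anti Δ u) (q x y t r a : V) {k : ℝ} (hk : 2 * Δ - D r a ≤ D r y + D r t + k) :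
    Tgt D anti Δ u r (u (anti q) (anti q) + D r (anti q) + (u q x + D r y) + (u q (anti x) + D r t)
      + (u q a + k) + cT D anti x y t) := by
  apply h.tgt_ck q x
  have h1 := h.lip2 (anti r) q (anti r) a
  rw [h.ha' r q, h.ha' r a] at h1
  rw [h.ha r q]
  have h2 := cT_nonneg h.metr anti x y t
  linarith

theorem b332 (h : Loc D anti Δ u) (q x y t r : V) :
    Tgt D anti Δ u r (u (anti q) (anti q) + D r (anti q) + (u q x + D r y) + (u q (anti x) + D r t)
      + (u q (anti y) + D r (anti t)) + cT D anti x y t) := by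
  apply h.bnz_x
  rw [h.ha, h.ha]
  linarith

theorem b331 (h : Loc D anti Δ u) (q x y t r : V) :
    Tgt D anti Δ u r (u (anti q) (anti q) + D r (anti q) + (u q x + D r y) + (u q (anti x) + D r t)
      + (u q (anti t) + D r (anti y)) + cT D anti x y t) := by
  apply h.bnz_x
  rw [h.ha, h.ha]
  linarith

/-- row 1 `(q,y) + rx`, row 3 `(q,y') + rt'`, row 2 `(q,x') + rt` or `(q,t) + rx'` -/
theorem b232 (h : Loc D anti Δ u) (q x y t r : V) :
    Tgt D anti Δ u r (u (anti q) (anti q) + D r (anti q) + (u q y + D r x) + (u q (anti x) + D r t)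
      + (u q (anti y) + D r (anti t)) + cT D anti x y t) := by
  apply h.tgt_ck q y
  have h1 := h.lip2 (anti r) q (anti r) (anti x)
  rw [h.ha' r q, h.haa r x] at h1
  rw [h.ha r q, h.ha r t]
  have h2 := cT_nonneg h.metr anti x y t
  linarith

theorem b212 (h : Loc D anti Δ u) (q x y t r : V) :
    Tgt D anti Δ u r (u (anti q) (anti q) + D r (anti q) + (u q y + D r x) + (u q t + D r (anti x))
      + (u q (anti y) + D r (anti t)) + cT D anti x y t) := by
  apply h.tgt_ck q y
  have h1 := h.lip2 (anti r) q (anti r) t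
  rw [h.ha' r q, h.ha' r t] at h1
  rw [h.ha r q, h.ha r t, h.ha r x]
  have h2 := cT_nonneg h.metr anti x y t
  linarith

/-- row 2 `(q,t) + rx'`, row 3 `(q,t') + ry'`, row 1 `(q,x) + ry` or `(q,y) + rx` -/
theorem b311 (h : Loc D anti Δ u) (q x y t r : V) :
    Tgt D anti Δ u r (u (anti q) (anti q) + D r (anti q) + (u q x + D r y) + (u q t + D r (anti x))
      + (u q (anti t) + D r (anti y)) + cT D anti x y t) := by
  apply h.tgt_ck q t
  have h1 := h.lip2 (anti r) q (anti r) x
  rw [h.ha' r q, h.ha' r x] at h1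
  rw [h.ha r q, h.ha r y, h.ha r x]
  have h2 := cT_nonneg h.metr anti x y t
  linarith

theorem b211 (h : Loc D anti Δ u) (q x y t r : V) :
    Tgt D anti Δ u r (u (anti q) (anti q) + D r (anti q) + (u q y + D r x) + (u q t + D r (anti x))
      + (u q (anti t) + D r (anti y)) + cT D anti x y t) := by
  apply h.tgt_ck q t
  have h1 := h.lip2 (anti r) q (anti r) y
  rw [h.ha' r q, h.ha' r y] at h1
  rw [h.ha r q, h.ha r y, h.ha r x]
  have h2 := cT_nonneg h.metr anti x y t
  linarith

/-- `(x, t, y')`: costs `ry + rx' + rt'` -/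
theorem b312 (h : Loc D anti Δ u) (q x y t r : V) :
    Tgt D anti Δ u r (u (anti q) (anti q) + D r (anti q) + (u q x + D r y) + (u q t + D r (anti x))
      + (u q (anti y) + D r (anti t)) + cT D anti x y t) := by
  rw [h.ha r q, h.ha r x, h.ha r t]
  rcases h.lb x y t (anti r) with h1 | h1 | h1
  · apply h.tgt_ck q y
    rw [h.ha' r x, h.ha' r y] at h1
    have h2 := h.lip2 q q y x
    rw [h.metr.self] at h2
    have h3 := h.lip2 (anti r) q (anti r) t
    rw [h.ha' r q, h.ha' r t] at h3
    have h4 := h.metr.comm y x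
    linarith
  · apply h.tgt_ck q x
    rw [h.ha' r x, h.ha' r t] at h1
    have h2 := h.lip2 q q (anti x) t
    rw [h.metr.self, h.ha' x t] at h2
    have h3 := h.lip2 (anti r) q (anti r) (anti y)
    rw [h.ha' r q, h.haa r y] at h3
    linarith
  · apply h.tgt_ck q t
    rw [h.ha' r y, h.ha' r t] at h1
    have h2 := h.lip2 q q (anti t) (anti y)
    rw [h.metr.self, h.haa t y] at h2
    have h3 := h.lip2 (anti r) q (anti r) x
    rw [h.ha' r q, h.ha' r x] at h3
    have h4 := h.metr.comm t y
    linarith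

/-- `(y, x', t')`: costs `rx + rt + ry'` -/
theorem b231 (h : Loc D anti Δ u) (q x y t r : V) :
    Tgt D anti Δ u r (u (anti q) (anti q) + D r (anti q) + (u q y + D r x) + (u q (anti x) + D r t)
      + (u q (anti t) + D r (anti y)) + cT D anti x y t) := by
  rw [h.ha r q, h.ha r y]
  rcases h.lb x y t r with h1 | h1 | h1
  · apply h.tgt_ck q y
    have h2 := h.lip2 q q (anti y) (anti x)
    rw [h.metr.self, h.haa y x] at h2
    have h3 := h.lip2 (anti r) q (anti r) (anti t)
    rw [h.ha' r q, h.haa r t] at h3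
    have h4 := h.metr.comm y x
    linarith
  · apply h.tgt_ck q x
    have h2 := h.lip2 q q x (anti t)
    rw [h.metr.self, h.ha x t] at h2
    have h3 := h.lip2 (anti r) q (anti r) y
    rw [h.ha' r q, h.ha' r y] at h3
    linarith
  · apply h.tgt_ck q t
    have h2 := h.lip2 q q t y
    rw [h.metr.self] at h2
    have h3 := h.lip2 (anti r) q (anti r) (anti x)
    rw [h.ha' r q, h.haa r x] at h3
    have h4 := h.metr.comm t y
    linarith

/-- star at 1 with a zero row -/
theorem b011 (h : Loc D anti Δ u) (q x y t r : V) :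
    Tgt D anti Δ u r (u (anti q) (anti q) + D r (anti q) + (u x y + D r q) + (u q t + D r (anti x))
      + (u q (anti t) + D r (anti y)) + cT D anti x y t) := by
  apply h.tgt_ck q t
  have h1 := h.lip2 (anti r) x (anti r) y
  rw [h.ha' r x, h.ha' r y] at h1
  rw [h.ha r q, h.ha r y, h.ha r x]
  have h2 := cT_nonneg h.metr anti x y t
  linarith

theorem b202 (h : Loc D anti Δ u) (q x y t r : V) :
    Tgt D anti Δ u r (u (anti q) (anti q) + D r (anti q) + (u q y + D r x) + (u (anti x) t + D r q)
      + (u q (anti y) + D r (anti t)) + cT D anti x y t) := by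
  apply h.tgt_ck q y
  have h1 := h.lip2 (anti r) (anti x) (anti r) t
  rw [h.haa r x, h.ha' r t] at h1
  rw [h.ha r q, h.ha r t]
  have h2 := cT_nonneg h.metr anti x y t
  linarith

theorem b330 (h : Loc D anti Δ u) (q x y t r : V) :
    Tgt D anti Δ u r (u (anti q) (anti q) + D r (anti q) + (u q x + D r y) + (u q (anti x) + D r t)
      + (u (anti y) (anti t) + D r q) + cT D anti x y t) := by
  apply h.tgt_ck q x
  have h1 := h.lip2 (anti r) (anti y) (anti r) (anti t)
  rw [h.haa r y, h.haa r t] at h1
  rw [h.ha r q]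
  have h2 := cT_nonneg h.metr anti x y t
  linarith

end Loc

end Pool.Agent.KServer
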