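import Pool.Agent.Work.MP_fe875b_lc.W.Br

/-!
MP_fe875b_lc, W/Br2: the branches (0,3,1) and (0,3,2), and the symmetries of the array.
-/

set_option autoImplicit false
set_option linter.unusedSectionVars false

namespace Pool.Agent.KServer

theorem Tgt.mono {V : Type} {D : V → V → ℝ} {anti : V → V} {Δ : ℝ} {u : V → V → ℝ} {r : V} {L L' : ℝ}
    (h : Tgt D anti Δ u r L) (hL : L ≤ L') : Tgt D anti Δ u r L' := by
  obtain ⟨a, b, e, h⟩ := h
  exact ⟨a, b, e, h.trans hL⟩

namespace Loc

variable {V : Type} [Finite V] [Nonempty V] {D : V → V → ℝ} {anti : V → V} {Δ : ℝ} {u : V → V → ℝ}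

/-- four point condition, a pairing is at least the minimum of the two others -/
theorem fp_cases (h : Loc D anti Δ u) (a b c d : V) :
    u a c + u b d ≤ u a b + u c d ∨ u a d + u b c ≤ u a b + u c d := by
  have h1 := h.fp a b c d
  rcases min_choice (u a c + u b d) (u a d + u b c) with h2 | h2
  · left; rw [h2] at h1; exact h1
  · right; rw [h2] at h1; exact h1

theorem b031 (h : Loc D anti Δ u) (q x y t r : V) :
    Tgt D anti Δ u r (u (anti q) (anti q) + D r (anti q) + (u x y + D r q) + (u q (anti x) + D r t)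
      + (u q (anti t) + D r (anti y)) + cT D anti x y t) := by
  have hc := cT_nonneg h.metr anti x y t
  rw [h.ha r q, h.ha r y]
  have s1 := h.symm y q
  have s2 := h.symm x q
  have s3 := h.symm y x
  have s4 := h.symm (anti t) x
  have s5 := h.symm (anti t) y
  have s6 := h.symm (anti t) q
  have s7 := h.symm (anti x) q
  have s8 := h.symm (anti x) x
  have s9 := h.symm (anti x) y
  have s10 := h.symm (anti r) q
  have s11 := h.symm (anti r) x
  have s12 := h.symm (anti r) y
  -- (*)
  by_cases hs : u y (anti t) + u q x ≤ u x y + u q (anti t)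
  · apply h.tgt_ck q x
    have h1 := h.lip2 (anti r) y (anti r) (anti t)
    rw [h.ha' r y, h.haa r t] at h1
    linarith
  have hs' := not_le.1 hs
  rcases h.lb x y t r with h1 | h1 | h1
  · -- first
    have h2 : u x (anti t) + u q y ≤ u x y + u q (anti t) := by
      rcases h.fp_cases x y q (anti t) with h3 | h3
      · linarith
      · linarith
    apply h.tgt_ck q y
    have h3 := h.lip2 q q (anti y) (anti x)
    rw [h.metr.self, h.haa y x] at h3
    have h4 := h.lip2 (anti r) x (anti r) (anti t)
    rw [h.ha' r x, h.haa r t] at h4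
    have h5 := h.metr.comm y x
    linarith
  · -- second
    apply h.tgt_ck q x
    have h2 := h.lip2 q q x (anti t)
    rw [h.metr.self, h.ha x t] at h2
    have h3 := h.lip2 (anti r) x (anti r) y
    rw [h.ha' r x, h.ha' r y] at h3
    linarith
  · -- third
    by_cases hss : u x (anti x) + u q y ≤ u x y + u q (anti x)
    · apply h.tgt_ck q y
      have h2 := h.lip2 q q (anti y) (anti t)
      rw [h.metr.self, h.haa y t] at h2
      have h3 := h.lip2 (anti r) x (anti r) (anti x)
      rw [h.ha' r x, h.haa r x] at h3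
      linarith
    have hss' := not_le.1 hss
    have e1 : u x (anti t) + u q y ≤ u x y + u q (anti t) := by
      rcases h.fp_cases x y q (anti t) with h3 | h3
      · linarith
      · linarith
    have e2 : u y (anti x) + u q x ≤ u x y + u q (anti x) := by
      rcases h.fp_cases x y q (anti x) with h3 | h3
      · linarith
      · linarith
    have l1 := h.lip2 (anti r) y (anti r) (anti r)
    rw [h.metr.self, h.ha' r y] at l1
    have l2 := h.lip2 q q (anti r) (anti t)
    rw [h.metr.self, h.haa r t] at l2
    have l3 := h.lip2 x x (anti r) (anti t)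
    rw [h.metr.self, h.haa r t] at l3
    have l4 := h.lip2 (anti r) x (anti r) (anti r)
    rw [h.metr.self, h.ha' r x] at l4
    have l5 := h.lip2 q q (anti r) (anti x)
    rw [h.metr.self, h.haa r x] at l5
    have l6 := h.lip2 q q (anti y) (anti t)
    rw [h.metr.self, h.haa y t] at l6
    by_cases c1 : u y (anti r) + u q x ≤ u x y + u q (anti r)
    · apply h.tgt_ck q x
      linarith
    by_cases c2 : u y (anti r) + u q x ≤ u x (anti r) + u q y
    · apply h.tgt_ck q x
      linarith
    have c1' := not_le.1 c1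
    have c2' := not_le.1 c2
    have e3 : u x (anti r) + u q y ≤ u x y + u q (anti r) := by
      rcases h.fp_cases x y q (anti r) with h3 | h3
      · linarith
      · linarith
    apply h.tgt_ck q y
    linarith

theorem b032 (h : Loc D anti Δ u) (q x y t r : V) :
    Tgt D anti Δ u r (u (anti q) (anti q) + D r (anti q) + (u x y + D r q) + (u q (anti x) + D r t)
      + (u q (anti y) + D r (anti t)) + cT D anti x y t) := by
  have hc := cT_nonneg h.metr anti x y t
  rw [h.ha r q, h.ha r t]
  have s1 := h.symm y q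
  have s2 := h.symm x q
  have s3 := h.symm y x
  have s10 := h.symm (anti r) q
  have s11 := h.symm (anti r) x
  have s12 := h.symm (anti r) y
  by_cases ha : u x (anti x) + u q y ≤ u x y + u q (anti x)
  · apply h.tgt_ck q y
    have h3 := h.lip2 (anti r) x (anti r) (anti x)
    rw [h.ha' r x, h.haa r x] at h3
    linarith
  by_cases hb : u y (anti y) + u q x ≤ u x y + u q (anti y)
  · apply h.tgt_ck q x
    have h3 := h.lip2 (anti r) y (anti r) (anti y)
    rw [h.ha' r y, h.haa r y] at h3
    linarith
  have ha' := not_le.1 ha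
  have hb' := not_le.1 hb
  have e1 : u y (anti x) + u q x ≤ u x y + u q (anti x) := by
    rcases h.fp_cases x y q (anti x) with h3 | h3
    · linarith
    · linarith
  have e2 : u x (anti y) + u q y ≤ u x y + u q (anti y) := by
    rcases h.fp_cases x y q (anti y) with h3 | h3
    · linarith
    · linarith
  have l1 := h.lip2 (anti r) y (anti r) (anti r)
  rw [h.metr.self, h.ha' r y] at l1
  have l2 := h.lip2 q q (anti r) (anti y)
  rw [h.metr.self, h.haa r y] at l2
  have l3 := h.lip2 y y (anti r) (anti x)
  rw [h.metr.self, h.haa r x] at l3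
  have l4 := h.lip2 (anti r) x (anti r) (anti r)
  rw [h.metr.self, h.ha' r x] at l4
  have l5 := h.lip2 q q (anti r) (anti x)
  rw [h.metr.self, h.haa r x] at l5
  by_cases c1 : u x (anti r) + u q y ≤ u x y + u q (anti r)
  · apply h.tgt_ck q y
    linarith
  by_cases c2 : u x (anti r) + u q y ≤ u y (anti r) + u q x
  · apply h.tgt_ck q y
    linarith
  have c1' := not_le.1 c1
  have c2' := not_le.1 c2
  have e3 : u y (anti r) + u q x ≤ u x y + u q (anti r) := by
    rcases h.fp_cases x y q (anti r) with h3 | h3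
    · linarith
    · linarith
  apply h.tgt_ck q x
  linarith

end Loc

section Sym

variable {V : Type} [Finite V] [Nonempty V] {D : V → V → ℝ} {anti : V → V} {Δ : ℝ}

theorem pairMin_anti (hD : Metr D) (ha : ∀ x y, D x (anti y) = Δ - D x y) (b₁ b₂ b₃ z : V) :
    pairMin D (anti b₁) (anti b₂) (anti b₃) z = pairMin D b₁ b₂ b₃ (anti z) := by
  have ha' : ∀ x y, D (anti x) y = Δ - D x y := fun x y => by rw [hD.comm, ha, hD.comm]
  unfold pairMin
  simp only [ha, ha']
  congr 1
  · ring
  · congr 1 <;> ring

theorem pairMin_swap12 (hD : Metr D) (b₁ b₂ b₃ z : V) : pairMin D b₂ b₁ b₃ z = pairMin D b₁ b₂ b₃ z := by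
  unfold pairMin
  rw [hD.comm b₂ b₁, add_comm (D z b₂) (D z b₁), min_comm (D z b₂ + D z b₃ - D b₂ b₃)]

theorem pairMin_swap23 (hD : Metr D) (b₁ b₂ b₃ z : V) : pairMin D b₁ b₃ b₂ z = pairMin D b₁ b₂ b₃ z := by
  unfold pairMin
  rw [hD.comm b₃ b₂, add_comm (D z b₃) (D z b₂), ← min_assoc, ← min_assoc,
    min_comm (D z b₁ + D z b₃ - D b₁ b₃)]

theorem iSup_anti (hai : ∀ x, anti (anti x) = x) (f : V → ℝ) : (⨆ z, f (anti z)) = ⨆ z, f z :=
  Equiv.iSup_comp (g := f) ⟨anti, anti, hai, hai⟩

theorem cT_swap12 (hD : Metr D) (hai : ∀ x, anti (anti x) = x) (ha : ∀ x y, D x (anti y) = Δ - D x y)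
    (x y t : V) : cT D anti (anti x) t y = cT D anti x y t := by
  unfold cT
  rw [← iSup_anti hai fun z => pairMin D (anti x) y (anti t) z]
  congr 1
  funext z
  rw [← pairMin_anti hD ha, hai t, hai x]
  rw [pairMin_swap23 hD]

theorem cT_swap23 (hD : Metr D) (hai : ∀ x, anti (anti x) = x) (ha : ∀ x y, D x (anti y) = Δ - D x y)
    (x y t : V) : cT D anti y x (anti t) = cT D anti x y t := by
  unfold cT
  rw [← iSup_anti hai fun z => pairMin D (anti x) y (anti t) z]
  congr 1
  funext z
  rw [← pairMin_anti hD ha, hai t, hai x]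
  rw [pairMin_swap12 hD]

theorem cT_swap13 (hD : Metr D) (hai : ∀ x, anti (anti x) = x) (ha : ∀ x y, D x (anti y) = Δ - D x y)
    (x y t : V) : cT D anti (anti t) (anti y) (anti x) = cT D anti x y t := by
  rw [← cT_swap12 hD hai ha x y t, ← cT_swap23 hD hai ha (anti x) t y,
    ← cT_swap12 hD hai ha t (anti x) (anti y)]

end Sym

end Pool.Agent.KServer
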