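import Pool.Agent.Work.MP_fe875b_lc.Final

/-!
MP_fe875b_lc, work function library (general number `k` of servers, arbitrary space with a
distance function `D`). Configurations are functions `Fin k → M`; every work function is symmetric.
This file is fixed.
-/

set_option autoImplicit false

namespace Pool.Agent.KServer

open Finset

variable {M : Type*} {k : ℕ}

/-- Symmetric pseudo-metric. -/
structure Metr (D : M → M → ℝ) : Prop extends IsDist D where
  comm : ∀ x y, D x y = D y x

/-- Update of a work function by the request `r`:
`w^r(X) = min_i (w(X with the i-th server at r) + D(r, X_i))`. -/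
noncomputable def upd (D : M → M → ℝ) (w : (Fin k → M) → ℝ) (r : M) (X : Fin k → M) : ℝ :=
  ⨅ i : Fin k, (w (Function.update X i r) + D r (X i))

/-- The initial work function: the cost of a minimal matching between `c₀` and `X`. -/
noncomputable def wf0 (D : M → M → ℝ) (c₀ : Fin k → M) (X : Fin k → M) : ℝ :=
  ⨅ π : Equiv.Perm (Fin k), ∑ i : Fin k, D (c₀ i) (X (π i))

/-- Work functions; the argument is the REVERSED list of requests. -/
noncomputable def wfR (D : M → M → ℝ) (c₀ : Fin k → M) : List M → (Fin k → M) → ℝ
  | [] => wf0 D c₀
  | (r :: l) => upd D (wfR D c₀ l) r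

/-- The work function after the request sequence `σ` (in the order of time), start `c₀`. -/
noncomputable def wf (D : M → M → ℝ) (c₀ : Fin k → M) (σ : List M) : (Fin k → M) → ℝ :=
  wfR D c₀ σ.reverse

theorem wf_nil (D : M → M → ℝ) (c₀ : Fin k → M) : wf D c₀ [] = wf0 D c₀ := rfl

theorem wf_append (D : M → M → ℝ) (c₀ : Fin k → M) (σ : List M) (r : M) :
    wf D c₀ (σ ++ [r]) = upd D (wf D c₀ σ) r := by
  unfold wf
  rw [List.reverse_append]
  rfl

/-- The properties of work functions which are used: symmetric, 1-Lipschitz, and quasi-convex
(Koutsoupias-Papadimitriou): for two configurations `X, Y` there is a bijection between them such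
that exchanging any set `I` of matched pairs does not increase the sum of the two values. -/
structure QWF (D : M → M → ℝ) (w : (Fin k → M) → ℝ) : Prop where
  symm : ∀ (X : Fin k → M) (π : Equiv.Perm (Fin k)), w (X ∘ π) = w X
  lip : ∀ (X : Fin k → M) (i : Fin k) (y : M), w (Function.update X i y) ≤ w X + D (X i) y
  qc : ∀ X Y : Fin k → M, ∃ π : Equiv.Perm (Fin k), ∀ I : Finset (Fin k),
    w (I.piecewise (Y ∘ π) X) + w (I.piecewise X (Y ∘ π)) ≤ w X + w Y

end Pool.Agent.KServer
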