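import Pool.Agent.Work.MP_fe875b_lc.W.Alg
import Pool.Agent.Work.MP_fe875b_lc.W.Dual
import Pool.Agent.Work.MP_fe875b_lc.W.Ant

/-!
MP_fe875b_lc, W/Fin (size M): from potentials on finite antipodal spaces to every metric space.

`HasPot k c D anti Δ v`: the space has a potential for the extended costs, all servers starting at `v`.

Proof of `all_of_pot`. By `tfae_main` (5 ⇒ 1) it is enough to show `StrictOn k c G v N` for every finite connected graph `G`. Let `D = gdist G`
(`isDist_gdist`, symmetric by `SimpleGraph.dist_comm`), `V` finite, so `D x y ≤ B` for some `B ≥ 0`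
(e.g. `B = ∑ x, ∑ y, D x y` with a `Fintype` instance, all terms nonnegative). `Δ = 2 B`, the space `V ⊕ V` with `antiD D Δ`, `anti = Sum.swap`
(`metr_antiD`, `antiD_swap`), and `Φ` from the hypothesis for the start `Sum.inl v`. Put `Ψ σ = Φ (σ.map Sum.inl)` for `σ : List V`.
`h1` of `comp_of_potential` (for `D`, `c₀ = fun _ => v`): `wf D (σ ++ [r]) X - wf D σ X` equals the same difference in the antipodal space
(`wf_antiD`, `List.map_append`) which is `upd w (inl r) (inl ∘ X) - w (inl ∘ X)` (`wf_append`), `w = wf (antiD D Δ) (fun _ => inl v) (σ.map inl)`, a `QWF`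
(`qwf_wf`), so it is at most `Δ + w (update (fun _ => anti r) i₀ r) - w (fun _ => anti r)` (`upd_sub_le`), at most `Ψ (σ ++ [r]) - Ψ σ`. `h2` with `b = 0`: from `wf_antiD` and the second
property. Then `Comp D (fun _ => v) c (0 - Ψ [])` and `Ψ [] = Φ [] ≥ 0` give `StrictOn` (drop the bound on the length).
-/

set_option autoImplicit false

namespace Pool.Agent.KServer

open Finset

/-- A potential for the extended costs of `k` servers on an antipodal space (`anti`, `Δ`), all servers starting at `v`: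
`Φ` is a function of the request sequence. -/
def HasPot (k : ℕ) (c : ℝ) {V : Type} (D : V → V → ℝ) (anti : V → V) (Δ : ℝ) (v : V) : Prop :=
  ∃ Φ : List V → ℝ,
    (∀ (σ : List V) (r : V) (i₀ : Fin k), Δ + wf D (fun _ : Fin k => v) σ (Function.update (fun _ => anti r) i₀ r)
        - wf D (fun _ : Fin k => v) σ (fun _ => anti r) ≤ Φ (σ ++ [r]) - Φ σ) ∧
    (∀ (σ : List V) (X : Fin k → V), Φ σ ≤ (c + 1) * wf D (fun _ : Fin k => v) σ X) ∧ 0 ≤ Φ []

theorem all_of_pot {k : ℕ} (hk : 0 < k) {c : ℝ} (hc : 0 ≤ c)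
    (H : ∀ (V : Type) [Finite V] (D : V → V → ℝ) (anti : V → V) (Δ : ℝ) (v : V), Metr D → (∀ x, anti (anti x) = x) →
      (∀ x y, D x (anti y) = Δ - D x y) → HasPot k c D anti Δ v) :
    ∀ (M : Type) [MetricSpace M] (c₀ : Fin k → M), ∃ b : ℝ, Comp (fun x y => dist x y) c₀ c b := by
  classical
  refine ((tfae_main hk hc 0).out 0 4).2 ?_
  intro V _ G hG v N
  have : Fintype V := Fintype.ofFinite V
  have hM : Metr (gdist G) :=
    { isDist_gdist G hG with comm := fun x y => by simp [gdist, SimpleGraph.dist_comm] }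
  have hB : ∀ x y, gdist G x y ≤ ∑ x, ∑ y, gdist G x y := by
    intro x y
    calc gdist G x y ≤ ∑ y, gdist G x y :=
          single_le_sum (f := fun y => gdist G x y) (fun z _ => hM.nonneg x z) (mem_univ y)
      _ ≤ ∑ x, ∑ y, gdist G x y :=
          single_le_sum (f := fun x => ∑ y, gdist G x y)
            (fun z _ => sum_nonneg fun w _ => hM.nonneg z w) (mem_univ x)
  generalize hBe : ∑ x, ∑ y, gdist G x y = B at hB
  have hm := metr_antiD hM hB (le_refl (2 * B))
  obtain ⟨Φ, h1, h2, h0⟩ := H (V ⊕ V) (antiD (gdist G) (2 * B)) Sum.swap (2 * B) (Sum.inl v) hm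
    (fun x => Sum.swap_swap x) (antiD_swap _ _)
  have hwf : ∀ (σ : List V) (X : Fin k → V),
      wf (antiD (gdist G) (2 * B)) (fun _ : Fin k => Sum.inl v) (σ.map Sum.inl) (fun i => Sum.inl (X i)) =
        wf (gdist G) (fun _ => v) σ X := fun σ X => wf_antiD _ _ (fun _ => v) σ X
  have key : Comp (gdist G) (fun _ : Fin k => v) c (0 - (fun σ : List V => Φ (σ.map Sum.inl)) []) := by
    refine comp_of_potential hk hM _ hc (fun σ => Φ (σ.map Sum.inl)) ?_ ?_
    · intro σ r X
      have h3 := h1 (σ.map Sum.inl) (Sum.inl r) ⟨0, hk⟩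
      have h4 := upd_sub_le hm (antiD_swap (gdist G) (2 * B))
        (qwf_wf hk hm (fun _ : Fin k => Sum.inl v) (σ.map Sum.inl)) (Sum.inl r) ⟨0, hk⟩
        (fun i => Sum.inl (X i))
      have h5 : (σ ++ [r]).map (Sum.inl : V → V ⊕ V) = σ.map Sum.inl ++ [Sum.inl r] := by simp
      have h6 := wf_append (antiD (gdist G) (2 * B)) (fun _ : Fin k => (Sum.inl v : V ⊕ V))
        (σ.map Sum.inl) (Sum.inl r)
      rw [← h6, ← h5, hwf, hwf] at h4
      show _ ≤ Φ ((σ ++ [r]).map Sum.inl) - Φ (σ.map Sum.inl)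
      rw [h5]
      linarith
    · intro σ X
      have h3 := h2 (σ.map Sum.inl) (fun i => Sum.inl (X i))
      rw [hwf] at h3
      show Φ (σ.map Sum.inl) ≤ _
      linarith
  obtain ⟨C, hC, hb⟩ := key
  refine ⟨C, hC, fun σ S _ hS => ?_⟩
  have h3 := hb σ S hS
  have h4 : (0 : ℝ) ≤ (fun σ : List V => Φ (σ.map Sum.inl)) [] := h0
  linarith

end Pool.Agent.KServer
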