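import Pool.Agent.Work.MP_fe875b_lc.W.Fin

/-!
MP_fe875b_lc, W/Froz: the frozen statement S15655 from potentials on finite antipodal spaces.
-/

set_option autoImplicit false

namespace Pool.Agent.KServer

open Finset

/-- If every finite antipodal space has a potential with ratio `k` for the extended costs of `k` servers, then the
`k`-server conjecture (the frozen statement S15655) holds. -/
theorem frozen_of_pot
    (H : ∀ (k : ℕ), 0 < k → ∀ (V : Type) [Finite V] (D : V → V → ℝ) (anti : V → V) (Δ : ℝ) (v : V), Metr D →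
      (∀ x, anti (anti x) = x) → (∀ x y, D x (anti y) = Δ - D x y) → HasPot k (k : ℝ) D anti Δ v) :
    ∀ (M : Type) [MetricSpace M] (k : ℕ), 0 < k → ∀ c₀ : Fin k → M,
      ∃ C : List M → (Fin k → M),
        C [] = c₀ ∧
        (∀ (l : List M) (r : M), ∃ i : Fin k, C (l ++ [r]) i = r) ∧
        ∃ α : ℝ, ∀ (σ : List M) (S : ℕ → Fin k → M),
          S 0 = c₀ →
          (∀ j : Fin σ.length, ∃ i : Fin k, S (j.val + 1) i = σ.get j) →
          (∑ j ∈ Finset.range σ.length, ∑ i : Fin k,
              dist (C (σ.take j) i) (C (σ.take (j + 1)) i))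
            ≤ (k : ℝ) * (∑ j ∈ Finset.range σ.length, ∑ i : Fin k,
              dist (S j i) (S (j + 1) i)) + α := by
  intro M _ k hk c₀
  obtain ⟨b, C, hC, hb⟩ := all_of_pot hk (Nat.cast_nonneg k) (H k hk) M c₀
  exact ⟨C, hC.1, hC.2, b, fun σ S h0 hS => hb σ S ⟨h0, hS⟩⟩

end Pool.Agent.KServer
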