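import Pool.Agent.Work.MP_fe875b_lc.W.Red3

/-!
MP_fe875b_lc, W/Loc: local form of inequality [I] at the request `r`, `u a b = w ![r, a, b]`, and the
branches which are settled (all except class A). Proofs: helper87, kserver3.md version 2.
-/

set_option autoImplicit false

namespace Pool.Agent.KServer

open Finset

variable {V : Type}

/-- Local data: `u` is symmetric, 1-Lipschitz, and satisfies the four point condition. -/
structure Loc (D : V → V → ℝ) (anti : V → V) (Δ : ℝ) (u : V → V → ℝ) : Prop where
  metr : Metr D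
  ha : ∀ x y, D x (anti y) = Δ - D x y
  hai : ∀ x, anti (anti x) = x
  symm : ∀ a b, u a b = u b a
  lip : ∀ a b c, u a c ≤ u b c + D a b
  fp : ∀ a b c d, min (u a c + u b d) (u a d + u b c) ≤ u a b + u c d

/-- `L` is at least the value of some array with centre `r`. -/
def Tgt (D : V → V → ℝ) (anti : V → V) (Δ : ℝ) (u : V → V → ℝ) (r : V) (L : ℝ) : Prop :=
  ∃ a b e : V, u a b + u (anti a) e + u (anti b) (anti e) + cT D anti a b e + Δ
    + u (anti r) (anti r) ≤ L

namespace Loc

variable [Finite V] [Nonempty V] {D : V → V → ℝ} {anti : V → V} {Δ : ℝ} {u : V → V → ℝ}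

theorem ha' (h : Loc D anti Δ u) (x y : V) : D (anti x) y = Δ - D x y := by
  rw [h.metr.comm, h.ha, h.metr.comm]

theorem haa (h : Loc D anti Δ u) (x y : V) : D (anti x) (anti y) = D x y := by
  rw [h.ha, h.ha']; ring

theorem lip2 (h : Loc D anti Δ u) (a b c d : V) : u a c ≤ u b d + D a b + D c d := by
  have h1 := h.lip a b c
  have h2 := h.lip c d b
  rw [h.symm c b, h.symm d b] at h2
  linarith

/-- array `(q', q', s)`: rows `(q'q'), (q,s), (q,s')`. -/
theorem tgt_ck (h : Loc D anti Δ u) {r : V} {L : ℝ} (q s : V)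
    (hL : u (anti q) (anti q) + u q s + u q (anti s) + Δ + u (anti r) (anti r) ≤ L) :
    Tgt D anti Δ u r L := by
  refine ⟨anti q, anti q, s, ?_⟩
  rw [cT_self h.metr h.ha, h.hai]
  linarith

/-- lower bound for `c` at the point `z` -/
theorem lb (h : Loc D anti Δ u) (x y t z : V) :
    (Δ - D z x + D z y - (Δ - D x y) ≤ cT D anti x y t) ∨
    (2 * Δ - D z x - D z t - D x t ≤ cT D anti x y t) ∨
    (D z y + (Δ - D z t) - (Δ - D y t) ≤ cT D anti x y t) := by
  have h1 := pairMin_le_cT D anti x y t z
  unfold pairMin at h1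
  rcases min_choice (D z (anti x) + D z y - D (anti x) y) (min (D z (anti x) + D z (anti t) - D (anti x) (anti t))
    (D z y + D z (anti t) - D y (anti t))) with h2 | h2
  · left
    rw [h2, h.ha, h.ha'] at h1
    exact h1
  · rw [h2] at h1
    rcases min_choice (D z (anti x) + D z (anti t) - D (anti x) (anti t))
      (D z y + D z (anti t) - D y (anti t)) with h3 | h3
    · right; left
      rw [h3, h.ha, h.ha, h.haa] at h1
      linarith
    · right; right
      rw [h3, h.ha, h.ha] at h1
      exact h1

theorem tri3 (h : Loc D anti Δ u) (x y z : V) : D x z ≤ D x y + D y z := h.metr.tri x y z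

end Loc

end Pool.Agent.KServer
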