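import Pool.Agent.Work.MP_fe875b_lc.W.QcU

/-!
MP_fe875b_lc, W/Off (size S-M): the work function is a lower bound for offline schedules.

Proof of `wf_le_sched`: induction on `σ` from the right (`List.reverseRecOn`), for all `S`.
Empty list: `wf0 D c₀ (S 0) = wf0 D c₀ c₀ = 0` (`wf0_self`), `schedCost D S 0 = 0`.
`σ ++ [r]`, `n = σ.length`: `S` restricted serves `σ` (indices `j < n`: `(σ ++ [r]).get j = σ.get j`). There is `i` with
`S (n+1) i = r`. By `upd_of_mem`, `wf (σ ++ [r]) (S (n+1)) = upd (wf σ) r (S (n+1)) = wf σ (S (n+1)) ≤ wf σ (S n) + ∑ i, D (S n i) (S (n+1) i)`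
(`lip_sum`), and `schedCost D S (n+1) = schedCost D S n + ∑ i, D (S n i) (S (n+1) i)` (`Finset.sum_range_succ`).
`wf_mono`: `le_upd` with `qwf_wf`.
-/

set_option autoImplicit false

namespace Pool.Agent.KServer

open Finset

variable {M : Type*} {k : ℕ}

theorem wf_le_sched (hk : 0 < k) {D : M → M → ℝ} (hD : Metr D) (c₀ : Fin k → M) (σ : List M) (S : ℕ → Fin k → M)
    (hS : Serves c₀ σ S) : wf D c₀ σ (S σ.length) ≤ schedCost D S σ.length := by
  induction σ using List.reverseRecOn with
  | nil =>
    have h0 : S ([] : List M).length = c₀ := hS.1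
    rw [h0, wf_nil, wf0_self hD]
    unfold schedCost
    simp
  | append_singleton σ r ih =>
    have hS' : Serves c₀ σ S := by
      refine ⟨hS.1, fun j => ?_⟩
      obtain ⟨i, hi⟩ := hS.2 ⟨j.val, by
        rw [List.length_append, List.length_singleton]
        exact Nat.lt_succ_of_lt j.isLt⟩
      refine ⟨i, hi.trans ?_⟩
      rw [List.get_eq_getElem, List.get_eq_getElem]
      exact List.getElem_append_left j.isLt
    have h1 := ih hS'
    obtain ⟨i, hi⟩ := hS.2 ⟨σ.length, by
      rw [List.length_append, List.length_singleton]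
      exact Nat.lt_succ_self _⟩
    have hi' : S (σ.length + 1) i = r := by
      refine hi.trans ?_
      rw [List.get_eq_getElem]
      simp
    have hlen : (σ ++ [r]).length = σ.length + 1 := by
      rw [List.length_append, List.length_singleton]
    have hq := qwf_wf hk hD c₀ σ
    rw [hlen, wf_append, upd_of_mem hk hD hq hi']
    have h2 := lip_sum hq (S σ.length) (S (σ.length + 1))
    have h3 : schedCost D S (σ.length + 1) =
        schedCost D S σ.length + ∑ i, D (S σ.length i) (S (σ.length + 1) i) := by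
      unfold schedCost
      rw [Finset.sum_range_succ]
    rw [h3]
    linarith

theorem wf_mono (hk : 0 < k) {D : M → M → ℝ} (hD : Metr D) (c₀ : Fin k → M) (σ : List M) (r : M) (X : Fin k → M) :
    wf D c₀ σ X ≤ wf D c₀ (σ ++ [r]) X := by
  rw [wf_append]
  exact le_upd hk (qwf_wf hk hD c₀ σ) r X

end Pool.Agent.KServer
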