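import Pool.Agent.Work.MP_fe875b_lc.W.Defs

/-!
MP_fe875b_lc, W/Qc0 (size M): the initial work function has all properties.

Proof. The infimum over the finite nonempty type `Equiv.Perm (Fin k)` is attained
(`exists_eq_ciInf_of_finite`) and bounded above by every term.
* `symm`: reindex by `σ ↦ π⁻¹ * σ`: `(X ∘ π) ((π⁻¹ σ) i) = X (σ i)`; so `wf0 (X ∘ π) ≤ wf0 X`, and apply this to `π⁻¹`.
* `lip`: let `σ` be optimal for `X`; for `update X i y` the same `σ` costs at most `D (X i) y` more: in the term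
  `j = σ⁻¹ i` use `D (c₀ j) y ≤ D (c₀ j) (X i) + D (X i) y`, the other terms are unchanged.
* `qc`: let `σ` be optimal for `X` and `τ` for `Y`. Put `π = τ * σ⁻¹`, so `X_i` (with `i = σ l`) and `Y_{π i}` (`π i = τ l`)
  are matched with the same `c₀ l`. For `I`: with `A = I.piecewise (Y ∘ π) X`, `B = I.piecewise X (Y ∘ π)`, both evaluated with the
  permutation `σ`: `wf0 A + wf0 B ≤ ∑_l (D (c₀ l) (A (σ l)) + D (c₀ l) (B (σ l)))` and for every `l` this summand equals
  `D (c₀ l) (X (σ l)) + D (c₀ l) (Y (τ l))` (case `σ l ∈ I` or not). The sum is `wf0 X + wf0 Y`.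
* `wf0_self`: `wf0 D c₀ c₀ ≤ 0` with the identity (`D x x = 0`).
* `wf0_const`: if all servers start at `v`, every permutation gives the same sum `∑ i, D v (X i)`.
-/

set_option autoImplicit false

namespace Pool.Agent.KServer

open Finset

variable {M : Type*} {k : ℕ}

private theorem wf0_le (D : M → M → ℝ) (c₀ X : Fin k → M) (σ : Equiv.Perm (Fin k)) :
    wf0 D c₀ X ≤ ∑ i, D (c₀ i) (X (σ i)) :=
  ciInf_le (Set.finite_range _).bddBelow σ

private theorem exists_wf0 (D : M → M → ℝ) (c₀ X : Fin k → M) :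
    ∃ σ : Equiv.Perm (Fin k), wf0 D c₀ X = ∑ i, D (c₀ i) (X (σ i)) := by
  obtain ⟨σ, hσ⟩ := exists_eq_ciInf_of_finite
    (f := fun π : Equiv.Perm (Fin k) => ∑ i : Fin k, D (c₀ i) (X (π i)))
  exact ⟨σ, hσ.symm⟩

private theorem wf0_comp_le (D : M → M → ℝ) (c₀ X : Fin k → M) (π : Equiv.Perm (Fin k)) :
    wf0 D c₀ (X ∘ π) ≤ wf0 D c₀ X := by
  obtain ⟨σ, hσ⟩ := exists_wf0 D c₀ X
  refine (wf0_le D c₀ (X ∘ π) (π⁻¹ * σ)).trans (le_of_eq ?_)
  rw [hσ]
  refine Finset.sum_congr rfl fun i _ => ?_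
  simp [Function.comp]

theorem qwf_wf0 {D : M → M → ℝ} (hD : Metr D) (c₀ : Fin k → M) : QWF D (wf0 D c₀) := by
  refine ⟨fun X π => ?_, fun X i y => ?_, fun X Y => ?_⟩
  · refine le_antisymm (wf0_comp_le D c₀ X π) ?_
    have h := wf0_comp_le D c₀ (X ∘ π) π⁻¹
    have e : (X ∘ π) ∘ (π⁻¹ : Equiv.Perm (Fin k)) = X := by
      funext j
      simp [Function.comp]
    rwa [e] at h
  · obtain ⟨σ, hσ⟩ := exists_wf0 D c₀ X
    refine (wf0_le D c₀ _ σ).trans ?_
    have h1 : ∑ j, (if σ j = i then D (X i) y else 0) = D (X i) y := by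
      rw [Equiv.sum_comp σ (fun a => if a = i then D (X i) y else 0)]
      simp
    rw [hσ]
    calc ∑ j, D (c₀ j) (Function.update X i y (σ j))
        ≤ ∑ j, (D (c₀ j) (X (σ j)) + (if σ j = i then D (X i) y else 0)) := by
          refine Finset.sum_le_sum fun j _ => ?_
          by_cases h : σ j = i
          · rw [h, Function.update_self, if_pos rfl]
            exact hD.tri _ _ _
          · rw [Function.update_of_ne h, if_neg h, add_zero]
      _ = ∑ j, D (c₀ j) (X (σ j)) + D (X i) y := by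
          rw [Finset.sum_add_distrib, h1]
  · obtain ⟨σ, hσ⟩ := exists_wf0 D c₀ X
    obtain ⟨τ, hτ⟩ := exists_wf0 D c₀ Y
    refine ⟨τ * σ⁻¹, fun I => ?_⟩
    have hA := wf0_le D c₀ (I.piecewise (Y ∘ (τ * σ⁻¹ : Equiv.Perm (Fin k))) X) σ
    have hB := wf0_le D c₀ (I.piecewise X (Y ∘ (τ * σ⁻¹ : Equiv.Perm (Fin k)))) σ
    refine (add_le_add hA hB).trans (le_of_eq ?_)
    rw [hσ, hτ, ← Finset.sum_add_distrib, ← Finset.sum_add_distrib]
    refine Finset.sum_congr rfl fun l _ => ?_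
    by_cases h : σ l ∈ I
    · rw [Finset.piecewise_eq_of_mem _ _ _ h, Finset.piecewise_eq_of_mem _ _ _ h, add_comm]
      simp [Function.comp]
    · rw [Finset.piecewise_eq_of_notMem _ _ _ h, Finset.piecewise_eq_of_notMem _ _ _ h]
      simp [Function.comp]

theorem wf0_self {D : M → M → ℝ} (hD : Metr D) (c₀ : Fin k → M) : wf0 D c₀ c₀ = 0 := by
  refine le_antisymm ?_ ?_
  · refine (wf0_le D c₀ c₀ 1).trans (le_of_eq ?_)
    simp [hD.self]
  · obtain ⟨σ, hσ⟩ := exists_wf0 D c₀ c₀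
    rw [hσ]
    exact Finset.sum_nonneg fun i _ => hD.nonneg _ _

theorem wf0_const (D : M → M → ℝ) (v : M) (X : Fin k → M) : wf0 D (fun _ : Fin k => v) X = ∑ i, D v (X i) := by
  unfold wf0
  have h : ∀ π : Equiv.Perm (Fin k), ∑ i, D v (X (π i)) = ∑ i, D v (X i) :=
    fun π => Equiv.sum_comp π (fun i => D v (X i))
  simp only [h]
  exact ciInf_const

end Pool.Agent.KServer
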