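import Pool.Agent.Work.MP_fe875b_lc.W.Upd
import Pool.Agent.Work.MP_fe875b_lc.W.Qc0

/-!
MP_fe875b_lc, W/QcU (size M-L): quasi-convexity is preserved by requests (Koutsoupias-Papadimitriou,
Lemma 3), so all work functions are `QWF`.

Proof of `qc_fix`: for `X, Y` with `X a = Y b = r` the bijection in `qc` can be chosen with `π a = b`.
Let `π` be a bijection for `X, Y`. If `π a = b` done. Otherwise let `a' = π⁻¹ b` and `b' = π a`, and put
`π' = π * swap a a'` (so `π' a = b`, `π' a' = b'`, `π' = π` elsewhere). Let `I` be a set of indices.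
Every exchange with `π'` has the same value as an exchange with `π`:
* if `a' ∉ I`: put `J = I \ {a}`. With `π'`: `X` at `a` is replaced by `Y b = r` if `a ∈ I`, so nothing changes: the first
  configuration is `J.piecewise (Y ∘ π) X` exactly (at `a`: `X a = r` in both; at `a'`: `X a'`; `π' = π` at the other indices).
  The second configuration with `π'` is `I.piecewise X (Y ∘ π')`: value at `a`: `r` in any case (`X a = r` or `Y (π' a) = Y b = r`), at `a'`:
  `Y b'`; while `J.piecewise X (Y ∘ π)` has at `a`: `Y (π a) = Y b'`, at `a'`: `Y b = r`. These are equal up to the transposition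
  `swap a a'`, so `w` has the same value (`hw.symm`).
* if `a' ∈ I`: put `J = I ∪ {a}` (then `a, a' ∈ J`). First configuration with `π'`: at `a`: `r` (`Y b` or `X a`), at `a'`: `Y b'`; with `π` and `J`:
  at `a`: `Y b'`, at `a'`: `Y b = r`: equal up to `swap a a'`. Second: with `π'`: at `a`: `r`, at `a'`: `X a'`; with `π`, `J`: at `a`: `X a = r`,
  at `a'`: `X a'`: equal.

Proof of `qwf_upd` (`qc`): let `upd w r X = w (update X a r) + D r (X a)` and `upd w r Y = w (update Y b r) + D r (Y b)` (`exists_upd`). Apply
`qc_fix` to `X₁ = update X a r`, `Y₁ = update Y b r`: `π` with `π a = b` and the exchange inequality. The same `π` works for `X, Y`: given `I`,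
let `A = I.piecewise (Y ∘ π) X`, `B = I.piecewise X (Y ∘ π)`. Then
`update A a r = (I.piecewise (Y₁ ∘ π) X₁)` (at `a` both are `r`; for `i ≠ a` we have `π i ≠ b`, so `Y₁ (π i) = Y (π i)`, `X₁ i = X i`) and
`update B a r = (I.piecewise X₁ (Y₁ ∘ π))`. So by `upd_le` at the index `a`
`upd A + upd B ≤ w (update A a r) + D r (A a) + w (update B a r) + D r (B a) ≤ w X₁ + w Y₁ + D r (A a) + D r (B a)` and
`{A a, B a} = {X a, Y b}`. `symm` and `lip` are `upd_symm`, `upd_lip`.
`qwf_wf`: induction on the reversed list.
-/

set_option autoImplicit false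

namespace Pool.Agent.KServer

open Finset

variable {M : Type*} {k : ℕ}

theorem qc_fix {D : M → M → ℝ} {w : (Fin k → M) → ℝ} (hw : QWF D w) {X Y : Fin k → M} {a b : Fin k} {r : M}
    (ha : X a = r) (hb : Y b = r) : ∃ π : Equiv.Perm (Fin k), π a = b ∧ ∀ I : Finset (Fin k),
      w (I.piecewise (Y ∘ π) X) + w (I.piecewise X (Y ∘ π)) ≤ w X + w Y := by
  obtain ⟨π, hπ⟩ := hw.qc X Y
  by_cases hab : π a = b
  · exact ⟨π, hab, hπ⟩
  obtain ⟨a', ha'⟩ : ∃ a', π a' = b := ⟨π.symm b, π.apply_symm_apply b⟩
  have hne : a' ≠ a := fun h => hab (h ▸ ha')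
  obtain ⟨ρ, pa, pa', po⟩ : ∃ ρ : Equiv.Perm (Fin k), ρ a = b ∧ ρ a' = π a ∧
      ∀ i, i ≠ a → i ≠ a' → ρ i = π i :=
    ⟨π * Equiv.swap a a', by simp [ha'], by simp, fun i h1 h2 => by
      simp [Equiv.swap_apply_of_ne_of_ne h1 h2]⟩
  refine ⟨ρ, pa, fun I => ?_⟩
  by_cases hI : a' ∈ I
  · have e1 : I.piecewise (Y ∘ ρ) X =
        ((insert a I).piecewise (Y ∘ π) X) ∘ Equiv.swap a a' := by
      funext i
      by_cases h1 : i = a
      · subst h1
        have : (I.piecewise (Y ∘ ρ) X) i = r := by
          by_cases h : i ∈ I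
          · rw [Finset.piecewise_eq_of_mem _ _ _ h, Function.comp_apply, pa, hb]
          · rw [Finset.piecewise_eq_of_notMem _ _ _ h, ha]
        rw [this, Function.comp_apply, Equiv.swap_apply_left,
          Finset.piecewise_eq_of_mem _ _ _ (Finset.mem_insert_of_mem hI), Function.comp_apply,
          ha', hb]
      · by_cases h2 : i = a'
        · subst h2
          rw [Finset.piecewise_eq_of_mem _ _ _ hI, Function.comp_apply, pa', Function.comp_apply,
            Equiv.swap_apply_right,
            Finset.piecewise_eq_of_mem _ _ _ (Finset.mem_insert_self _ _), Function.comp_apply]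
        · rw [Function.comp_apply, Equiv.swap_apply_of_ne_of_ne h1 h2]
          by_cases h : i ∈ I
          · rw [Finset.piecewise_eq_of_mem _ _ _ h,
              Finset.piecewise_eq_of_mem _ _ _ (Finset.mem_insert_of_mem h), Function.comp_apply,
              Function.comp_apply, po i h1 h2]
          · rw [Finset.piecewise_eq_of_notMem _ _ _ h,
              Finset.piecewise_eq_of_notMem _ _ _ (by simp [h1, h])]
    have e2 : I.piecewise X (Y ∘ ρ) = (insert a I).piecewise X (Y ∘ π) := by
      funext i
      by_cases h1 : i = a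
      · subst h1
        rw [Finset.piecewise_eq_of_mem _ _ _ (Finset.mem_insert_self _ _), ha]
        by_cases h : i ∈ I
        · rw [Finset.piecewise_eq_of_mem _ _ _ h, ha]
        · rw [Finset.piecewise_eq_of_notMem _ _ _ h, Function.comp_apply, pa, hb]
      · by_cases h2 : i = a'
        · subst h2
          rw [Finset.piecewise_eq_of_mem _ _ _ hI,
            Finset.piecewise_eq_of_mem _ _ _ (Finset.mem_insert_of_mem hI)]
        · by_cases h : i ∈ I
          · rw [Finset.piecewise_eq_of_mem _ _ _ h,
              Finset.piecewise_eq_of_mem _ _ _ (Finset.mem_insert_of_mem h)]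
          · rw [Finset.piecewise_eq_of_notMem _ _ _ h,
              Finset.piecewise_eq_of_notMem _ _ _ (by simp [h1, h]), Function.comp_apply,
              Function.comp_apply, po i h1 h2]
    rw [e1, e2, hw.symm]
    exact hπ (insert a I)
  · have e1 : I.piecewise (Y ∘ ρ) X = (I.erase a).piecewise (Y ∘ π) X := by
      funext i
      by_cases h1 : i = a
      · subst h1
        rw [Finset.piecewise_eq_of_notMem _ _ _ (Finset.notMem_erase _ _), ha]
        by_cases h : i ∈ I
        · rw [Finset.piecewise_eq_of_mem _ _ _ h, Function.comp_apply, pa, hb]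
        · rw [Finset.piecewise_eq_of_notMem _ _ _ h, ha]
      · by_cases h2 : i = a'
        · subst h2
          rw [Finset.piecewise_eq_of_notMem _ _ _ hI,
            Finset.piecewise_eq_of_notMem _ _ _ (by simp [hI])]
        · by_cases h : i ∈ I
          · rw [Finset.piecewise_eq_of_mem _ _ _ h,
              Finset.piecewise_eq_of_mem _ _ _ (Finset.mem_erase.2 ⟨h1, h⟩), Function.comp_apply,
              Function.comp_apply, po i h1 h2]
          · rw [Finset.piecewise_eq_of_notMem _ _ _ h,
              Finset.piecewise_eq_of_notMem _ _ _ (by simp [h])]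
    have e2 : I.piecewise X (Y ∘ ρ) =
        ((I.erase a).piecewise X (Y ∘ π)) ∘ Equiv.swap a a' := by
      funext i
      by_cases h1 : i = a
      · subst h1
        have : (I.piecewise X (Y ∘ ρ)) i = r := by
          by_cases h : i ∈ I
          · rw [Finset.piecewise_eq_of_mem _ _ _ h, ha]
          · rw [Finset.piecewise_eq_of_notMem _ _ _ h, Function.comp_apply, pa, hb]
        rw [this, Function.comp_apply, Equiv.swap_apply_left,
          Finset.piecewise_eq_of_notMem _ _ _ (by simp [hI]), Function.comp_apply,
          ha', hb]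
      · by_cases h2 : i = a'
        · subst h2
          rw [Finset.piecewise_eq_of_notMem _ _ _ hI, Function.comp_apply, pa',
            Function.comp_apply, Equiv.swap_apply_right,
            Finset.piecewise_eq_of_notMem _ _ _ (Finset.notMem_erase _ _), Function.comp_apply]
        · rw [Function.comp_apply (g := Equiv.swap a a'), Equiv.swap_apply_of_ne_of_ne h1 h2]
          by_cases h : i ∈ I
          · rw [Finset.piecewise_eq_of_mem _ _ _ h,
              Finset.piecewise_eq_of_mem _ _ _ (Finset.mem_erase.2 ⟨h1, h⟩)]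
          · rw [Finset.piecewise_eq_of_notMem _ _ _ h,
              Finset.piecewise_eq_of_notMem _ _ _ (by simp [h]), Function.comp_apply,
              Function.comp_apply, po i h1 h2]
    rw [e1, e2, hw.symm]
    exact hπ (I.erase a)

theorem qwf_upd (hk : 0 < k) {D : M → M → ℝ} (hD : Metr D) {w : (Fin k → M) → ℝ} (hw : QWF D w) (r : M) :
    QWF D (upd D w r) := by
  refine ⟨fun X π => upd_symm D hw.symm r X π, fun X i y => upd_lip hk hD hw r X i y,
    fun X Y => ?_⟩
  obtain ⟨a, ha⟩ := exists_upd hk D w r X
  obtain ⟨b, hb⟩ := exists_upd hk D w r Y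
  obtain ⟨π, hab, hπ⟩ := qc_fix hw (X := Function.update X a r) (Y := Function.update Y b r)
    (a := a) (b := b) (r := r) (Function.update_self _ _ _) (Function.update_self _ _ _)
  refine ⟨π, fun I => ?_⟩
  have hne : ∀ i, i ≠ a → π i ≠ b := fun i h h' => h (π.injective (h'.trans hab.symm))
  have e1 : Function.update (I.piecewise (Y ∘ π) X) a r =
      I.piecewise (Function.update Y b r ∘ π) (Function.update X a r) := by
    funext i
    by_cases h1 : i = a
    · subst h1
      rw [Function.update_self]
      by_cases h : i ∈ I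
      · rw [Finset.piecewise_eq_of_mem _ _ _ h, Function.comp_apply, hab, Function.update_self]
      · rw [Finset.piecewise_eq_of_notMem _ _ _ h, Function.update_self]
    · rw [Function.update_of_ne h1]
      by_cases h : i ∈ I
      · rw [Finset.piecewise_eq_of_mem _ _ _ h, Finset.piecewise_eq_of_mem _ _ _ h,
          Function.comp_apply, Function.comp_apply, Function.update_of_ne (hne i h1)]
      · rw [Finset.piecewise_eq_of_notMem _ _ _ h, Finset.piecewise_eq_of_notMem _ _ _ h,
          Function.update_of_ne h1]
  have e2 : Function.update (I.piecewise X (Y ∘ π)) a r =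
      I.piecewise (Function.update X a r) (Function.update Y b r ∘ π) := by
    funext i
    by_cases h1 : i = a
    · subst h1
      rw [Function.update_self]
      by_cases h : i ∈ I
      · rw [Finset.piecewise_eq_of_mem _ _ _ h, Function.update_self]
      · rw [Finset.piecewise_eq_of_notMem _ _ _ h, Function.comp_apply, hab, Function.update_self]
    · rw [Function.update_of_ne h1]
      by_cases h : i ∈ I
      · rw [Finset.piecewise_eq_of_mem _ _ _ h, Finset.piecewise_eq_of_mem _ _ _ h,
          Function.update_of_ne h1]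
      · rw [Finset.piecewise_eq_of_notMem _ _ _ h, Finset.piecewise_eq_of_notMem _ _ _ h,
          Function.comp_apply, Function.comp_apply, Function.update_of_ne (hne i h1)]
  have k1 := upd_le D w r (I.piecewise (Y ∘ π) X) a
  have k2 := upd_le D w r (I.piecewise X (Y ∘ π)) a
  rw [e1] at k1
  rw [e2] at k2
  have k3 := hπ I
  have k4 : D r ((I.piecewise (Y ∘ π) X) a) + D r ((I.piecewise X (Y ∘ π)) a) =
      D r (X a) + D r (Y b) := by
    by_cases h : a ∈ I
    · rw [Finset.piecewise_eq_of_mem _ _ _ h, Finset.piecewise_eq_of_mem _ _ _ h,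
        Function.comp_apply, hab, add_comm]
    · rw [Finset.piecewise_eq_of_notMem _ _ _ h, Finset.piecewise_eq_of_notMem _ _ _ h,
        Function.comp_apply, hab]
  rw [ha, hb]
  linarith

private theorem qwf_wfR (hk : 0 < k) {D : M → M → ℝ} (hD : Metr D) (c₀ : Fin k → M) :
    ∀ l : List M, QWF D (wfR D c₀ l)
  | [] => qwf_wf0 hD c₀
  | (r :: l) => qwf_upd hk hD (qwf_wfR hk hD c₀ l) r

theorem qwf_wf (hk : 0 < k) {D : M → M → ℝ} (hD : Metr D) (c₀ : Fin k → M) (σ : List M) : QWF D (wf D c₀ σ) :=
  qwf_wfR hk hD c₀ σ.reverse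

end Pool.Agent.KServer
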