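import Pool.Agent.Work.MP_fe875b_lc.W.Fin

/-!
MP_fe875b_lc, W/Red3: the three-server theorem follows from one inequality (helper87's potential).

On a finite antipodal space put `c(x,y,t) = max_z min(...)`, see `cT`, and
`Psi w = min over q,x,y,t of w(q',q',q') + w(q,x,y) + w(q,x',t) + w(q,y',t') + Δ + c(x,y,t)`.
-/

set_option autoImplicit false

namespace Pool.Agent.KServer

open Finset

variable {V : Type}

/-- The three pair terms for `B = (b₁, b₂, b₃)` at the point `z`. -/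
noncomputable def pairMin (D : V → V → ℝ) (b₁ b₂ b₃ z : V) : ℝ :=
  min (D z b₁ + D z b₂ - D b₁ b₂) (min (D z b₁ + D z b₃ - D b₁ b₃) (D z b₂ + D z b₃ - D b₂ b₃))

/-- `c(x,y,t) = max_z pairMin (x', y, t') z` -/
noncomputable def cT (D : V → V → ℝ) (anti : V → V) (x y t : V) : ℝ :=
  ⨆ z : V, pairMin D (anti x) y (anti t) z

/-- the sum of the four rows with centre `q` and array `(x, y, t)` -/
noncomputable def rows (anti : V → V) (w : (Fin 3 → V) → ℝ) (q x y t : V) : ℝ :=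
  w ![anti q, anti q, anti q] + w ![q, x, y] + w ![q, anti x, t] + w ![q, anti y, anti t]

/-- the potential -/
noncomputable def Psi (D : V → V → ℝ) (anti : V → V) (Δ : ℝ) (w : (Fin 3 → V) → ℝ) : ℝ :=
  ⨅ p : V × V × V × V, (rows anti w p.1 p.2.1 p.2.2.1 p.2.2.2 + Δ + cT D anti p.2.1 p.2.2.1 p.2.2.2)

/-- Inequality [I]. -/
def IneqI (D : V → V → ℝ) (anti : V → V) (Δ : ℝ) : Prop :=
  ∀ w : (Fin 3 → V) → ℝ, QWF D w → ∀ q x y t r : V,
    Psi D anti Δ w + w ![r, anti r, anti r] ≤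
      rows anti (upd D w r) q x y t + cT D anti x y t + w ![anti r, anti r, anti r]

theorem pairMin_nonneg {D : V → V → ℝ} (hD : Metr D) (b₁ b₂ b₃ z : V) : 0 ≤ pairMin D b₁ b₂ b₃ z := by
  have h : ∀ a b, 0 ≤ D z a + D z b - D a b := by
    intro a b
    have := hD.tri a z b
    rw [hD.comm a z] at this
    linarith
  exact le_min (h _ _) (le_min (h _ _) (h _ _))

theorem cT_nonneg [Finite V] {D : V → V → ℝ} (hD : Metr D) (anti : V → V) (x y t : V) : 0 ≤ cT D anti x y t :=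
  (pairMin_nonneg hD _ _ _ x).trans (le_ciSup (f := fun z => pairMin D (anti x) y (anti t) z)
    (Set.finite_range _).bddAbove x)

theorem pairMin_le_cT [Finite V] (D : V → V → ℝ) (anti : V → V) (x y t z : V) :
    pairMin D (anti x) y (anti t) z ≤ cT D anti x y t :=
  le_ciSup (f := fun z => pairMin D (anti x) y (anti t) z) (Set.finite_range _).bddAbove z

theorem cT_le [Finite V] [Nonempty V] {D : V → V → ℝ} {anti : V → V} {x y t : V} {b : ℝ}
    (h : ∀ z, pairMin D (anti x) y (anti t) z ≤ b) : cT D anti x y t ≤ b :=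
  ciSup_le h

theorem exists_cT [Finite V] [Nonempty V] (D : V → V → ℝ) (anti : V → V) (x y t : V) :
    ∃ z, cT D anti x y t = pairMin D (anti x) y (anti t) z := by
  obtain ⟨z, hz⟩ := exists_eq_ciSup_of_finite (f := fun z => pairMin D (anti x) y (anti t) z)
  exact ⟨z, hz.symm⟩

theorem cT_self [Finite V] [Nonempty V] {D : V → V → ℝ} (hD : Metr D) {anti : V → V} {Δ : ℝ}
    (ha : ∀ x y, D x (anti y) = Δ - D x y) (x t : V) : cT D anti x x t = 0 := by
  refine le_antisymm (cT_le fun z => ?_) (cT_nonneg hD anti x x t)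
  refine (min_le_left _ _).trans ?_
  have h1 : D (anti x) x = Δ - D x x := by rw [hD.comm, ha]
  rw [ha z x, h1, hD.self]
  linarith

theorem Psi_le [Finite V] (D : V → V → ℝ) (anti : V → V) (Δ : ℝ) (w : (Fin 3 → V) → ℝ) (q x y t : V) :
    Psi D anti Δ w ≤ rows anti w q x y t + Δ + cT D anti x y t :=
  ciInf_le (f := fun p : V × V × V × V =>
    rows anti w p.1 p.2.1 p.2.2.1 p.2.2.2 + Δ + cT D anti p.2.1 p.2.2.1 p.2.2.2)
    (Set.finite_range _).bddBelow (q, x, y, t)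

theorem exists_Psi [Finite V] [Nonempty V] (D : V → V → ℝ) (anti : V → V) (Δ : ℝ) (w : (Fin 3 → V) → ℝ) :
    ∃ q x y t : V, Psi D anti Δ w = rows anti w q x y t + Δ + cT D anti x y t := by
  obtain ⟨p, hp⟩ := exists_eq_ciInf_of_finite (f := fun p : V × V × V × V =>
    rows anti w p.1 p.2.1 p.2.2.1 p.2.2.2 + Δ + cT D anti p.2.1 p.2.2.1 p.2.2.2)
  exact ⟨p.1, p.2.1, p.2.2.1, p.2.2.2, hp.symm⟩

private theorem symm_swap {D : V → V → ℝ} {w : (Fin 3 → V) → ℝ} (hw : QWF D w) (X Y : Fin 3 → V)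
    (π : Equiv.Perm (Fin 3)) (h : X = Y ∘ π) : w X = w Y := by rw [h, hw.symm]

theorem Psi_le_four [Finite V] [Nonempty V] {D : V → V → ℝ} (hD : Metr D) {anti : V → V} {Δ : ℝ}
    (ha : ∀ x y, D x (anti y) = Δ - D x y) (hai : ∀ x, anti (anti x) = x) {w : (Fin 3 → V) → ℝ} (hw : QWF D w)
    (X : Fin 3 → V) : Psi D anti Δ w ≤ 4 * w X + 7 * Δ := by
  have h0 := Psi_le D anti Δ w (X 0) (anti (X 1)) (anti (X 1)) (X 2)
  rw [cT_self hD ha] at h0
  unfold rows at h0
  rw [hai] at h0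
  have hsum : ∀ Y : Fin 3 → V, w Y ≤ w X + (D (X 0) (Y 0) + D (X 1) (Y 1) + D (X 2) (Y 2)) := by
    intro Y
    have h1 := lip_sum hw X Y
    rw [Fin.sum_univ_three] at h1
    exact h1
  have h1 := hsum ![anti (X 0), anti (X 0), anti (X 0)]
  have h2 := hsum ![X 0, anti (X 1), anti (X 1)]
  have h3 := hsum ![X 0, X 1, X 2]
  have h4 := hsum ![X 0, X 1, anti (X 2)]
  simp only [Matrix.cons_val_zero, Matrix.cons_val_one, Matrix.cons_val, ha, hD.self] at h1 h2 h3 h4
  have n1 := hD.nonneg (X 1) (X 0)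
  have n2 := hD.nonneg (X 2) (X 0)
  have n3 := hD.nonneg (X 2) (X 1)
  linarith

theorem Psi_wf0 [Finite V] [Nonempty V] {D : V → V → ℝ} (hD : Metr D) {anti : V → V} {Δ : ℝ}
    (ha : ∀ x y, D x (anti y) = Δ - D x y) (v : V) :
    7 * Δ ≤ Psi D anti Δ (wf0 D (fun _ : Fin 3 => v)) := by
  obtain ⟨q, x, y, t, h⟩ := exists_Psi D anti Δ (wf0 D (fun _ : Fin 3 => v))
  rw [h]
  unfold rows
  rw [wf0_const, wf0_const, wf0_const, wf0_const]
  simp only [Fin.sum_univ_three, Matrix.cons_val_zero, Matrix.cons_val_one, Matrix.cons_val, ha]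
  have := cT_nonneg hD anti x y t
  linarith

private theorem cfg_r (r : V) (anti : V → V) {D : V → V → ℝ} {w : (Fin 3 → V) → ℝ} (hw : QWF D w) (i₀ : Fin 3) :
    w (Function.update (fun _ => anti r) i₀ r) = w ![r, anti r, anti r] := by
  apply symm_swap hw _ _ (Equiv.swap i₀ 0)
  funext j
  fin_cases i₀ <;> fin_cases j <;> rfl

/-- The three-server theorem from inequality [I]. -/
theorem three_of_ineq (H : ∀ (V : Type) [Finite V] (D : V → V → ℝ) (anti : V → V) (Δ : ℝ), Metr D →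
      (∀ x, anti (anti x) = x) → (∀ x y, D x (anti y) = Δ - D x y) → IneqI D anti Δ) :
    ∀ (M : Type) [MetricSpace M] (c₀ : Fin 3 → M), ∃ b : ℝ, Comp (fun x y => dist x y) c₀ 3 b := by
  refine all_of_pot (k := 3) (by norm_num) (by norm_num) ?_
  intro V _ D anti Δ v hD hai ha
  have : Nonempty V := ⟨v⟩
  refine ⟨fun σ => Psi D anti Δ (wf D (fun _ => v) σ) - 7 * Δ, ?_, ?_, ?_⟩
  · intro σ r i₀
    have hw := qwf_wf (k := 3) (by norm_num) hD (fun _ => v) σ
    obtain ⟨q, x, y, t, h⟩ := exists_Psi D anti Δ (wf D (fun _ : Fin 3 => v) (σ ++ [r]))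
    have h1 := H V D anti Δ hD hai ha _ hw q x y t r
    rw [← wf_append] at h1
    rw [cfg_r r anti hw]
    have e1 : (fun _ : Fin 3 => anti r) = ![anti r, anti r, anti r] := by
      funext j; fin_cases j <;> rfl
    rw [e1]
    show _ ≤ (Psi D anti Δ (wf D (fun _ => v) (σ ++ [r])) - 7 * Δ) - (Psi D anti Δ (wf D (fun _ => v) σ) - 7 * Δ)
    rw [h]
    linarith
  · intro σ X
    have hw := qwf_wf (k := 3) (by norm_num) hD (fun _ => v) σ
    have := Psi_le_four hD ha hai hw X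
    show Psi D anti Δ (wf D (fun _ => v) σ) - 7 * Δ ≤ _
    linarith
  · show 0 ≤ Psi D anti Δ (wf D (fun _ : Fin 3 => v) []) - 7 * Δ
    rw [wf_nil]
    have := Psi_wf0 hD ha v (D := D)
    linarith

end Pool.Agent.KServer
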