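import Pool.Agent.Work.MP_fe875b_lc.W.Defs

/-!
MP_fe875b_lc, W/Upd (size S-M): elementary properties of the update `w ↦ w^r`.

Proofs. The infimum in `upd` is over the finite type `Fin k` (nonempty for the second statement):
`ciInf_le (Set.finite_range _).bddBelow i` and `exists_eq_ciInf_of_finite`.
* `le_upd`: for every `i`, `w X = w (update (update X i r) i (X i)) ≤ w (update X i r) + D r (X i)` by `hw.lip`.
* `upd_of_mem`: `≤` by `upd_le` with this `i` (`update X i r = X`, `D r r = 0`), `≥` by `le_upd`.
* `upd_symm`: `update (X ∘ π) i r = (update X (π i) r) ∘ π` and reindexing the infimum by `π`.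
* `upd_lip`: let the infimum for `X` be attained at `j`. If `j = i`: take the index `i` for `update X i y`:
  `w (update (update X i y) i r) + D r y ≤ w (update X i r) + D r (X i) + D (X i) y`.
  If `j ≠ i`: `update (update X i y) j r = update (update X j r) i y`, use `hw.lip` and `(update X i y) j = X j`.
* `lip_sum`: change the coordinates one after the other (induction on a Finset of indices `s`:
  `w (s.piecewise Y X) ≤ w X + ∑ i ∈ s, D (X i) (Y i)`).
-/

set_option autoImplicit false

namespace Pool.Agent.KServer

open Finset

variable {M : Type*} {k : ℕ}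

theorem upd_le (D : M → M → ℝ) (w : (Fin k → M) → ℝ) (r : M) (X : Fin k → M) (i : Fin k) :
    upd D w r X ≤ w (Function.update X i r) + D r (X i) := by
  unfold upd
  exact ciInf_le (Set.finite_range (fun i : Fin k => w (Function.update X i r) + D r (X i))).bddBelow i

theorem exists_upd (hk : 0 < k) (D : M → M → ℝ) (w : (Fin k → M) → ℝ) (r : M) (X : Fin k → M) :
    ∃ i : Fin k, upd D w r X = w (Function.update X i r) + D r (X i) := by
  haveI : Nonempty (Fin k) := ⟨⟨0, hk⟩⟩
  obtain ⟨i, hi⟩ := exists_eq_ciInf_of_finite (f := fun i : Fin k => w (Function.update X i r) + D r (X i))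
  exact ⟨i, hi.symm⟩

private theorem lip_sum_aux {D : M → M → ℝ} {w : (Fin k → M) → ℝ} (hw : QWF D w) (X Y : Fin k → M)
    (s : Finset (Fin k)) : w (s.piecewise Y X) ≤ w X + ∑ i ∈ s, D (X i) (Y i) := by
  classical
  induction s using Finset.induction_on with
  | empty => simp
  | insert a s ha ih =>
    rw [Finset.sum_insert ha, Finset.piecewise_insert]
    have h := hw.lip (s.piecewise Y X) a (Y a)
    rw [Finset.piecewise_eq_of_notMem _ _ _ ha] at h
    linarith

theorem lip_sum {D : M → M → ℝ} {w : (Fin k → M) → ℝ} (hw : QWF D w) (X Y : Fin k → M) :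
    w Y ≤ w X + ∑ i, D (X i) (Y i) := by
  have h := lip_sum_aux hw X Y Finset.univ
  rwa [Finset.piecewise_univ] at h

theorem le_upd (hk : 0 < k) {D : M → M → ℝ} {w : (Fin k → M) → ℝ} (hw : QWF D w) (r : M) (X : Fin k → M) :
    w X ≤ upd D w r X := by
  obtain ⟨i, hi⟩ := exists_upd hk D w r X
  rw [hi]
  have h := hw.lip (Function.update X i r) i (X i)
  rw [Function.update_idem, Function.update_eq_self, Function.update_self] at h
  exact h

theorem upd_of_mem (hk : 0 < k) {D : M → M → ℝ} (hD : Metr D) {w : (Fin k → M) → ℝ} (hw : QWF D w) {r : M}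
    {X : Fin k → M} {i : Fin k} (h : X i = r) : upd D w r X = w X := by
  apply le_antisymm
  · have h1 := upd_le D w r X i
    have h2 : Function.update X i r = X := by rw [← h]; exact Function.update_eq_self i X
    rw [h2, h, hD.self] at h1
    linarith
  · exact le_upd hk hw r X

theorem upd_symm (D : M → M → ℝ) {w : (Fin k → M) → ℝ} (hs : ∀ (X : Fin k → M) (π : Equiv.Perm (Fin k)), w (X ∘ π) = w X)
    (r : M) (X : Fin k → M) (π : Equiv.Perm (Fin k)) : upd D w r (X ∘ π) = upd D w r X := by
  unfold upd
  rw [← Equiv.iInf_comp (g := fun i => w (Function.update X i r) + D r (X i)) π]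
  refine iInf_congr (fun i => ?_)
  have h : Function.update (X ∘ π) i r = (Function.update X (π i) r) ∘ π := by
    funext j
    by_cases hj : j = i
    · subst hj; simp
    · have : π j ≠ π i := fun e => hj (π.injective e)
      simp [Function.update_of_ne hj, Function.update_of_ne this]
  rw [h, hs]
  rfl

theorem upd_lip (hk : 0 < k) {D : M → M → ℝ} (hD : Metr D) {w : (Fin k → M) → ℝ} (hw : QWF D w) (r : M)
    (X : Fin k → M) (i : Fin k) (y : M) : upd D w r (Function.update X i y) ≤ upd D w r X + D (X i) y := by
  obtain ⟨j, hj⟩ := exists_upd hk D w r X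
  rw [hj]
  by_cases hji : j = i
  · subst hji
    have h := upd_le D w r (Function.update X j y) j
    rw [Function.update_idem, Function.update_self] at h
    have h2 := hD.tri r (X j) y
    linarith
  · have h := upd_le D w r (Function.update X i y) j
    rw [Function.update_comm (Ne.symm hji), Function.update_of_ne hji] at h
    have h2 := hw.lip (Function.update X j r) i y
    rw [Function.update_of_ne (Ne.symm hji)] at h2
    linarith

end Pool.Agent.KServer
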